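import Pool.Agent.H256.SG.Stm

/-!
# SG-ALG: degrees, linear combinations, monotonicity and compositions (helper908)
-/

set_option autoImplicit false

open Polynomial

noncomputable section

namespace Pool.Agent.H256.SG

namespace AlgAux

/-- linear combinations of `B 0, …, B k` -/
def Sp (B : ℕ → ℝ[X]) (k : ℕ) : Submodule ℝ ℝ[X] where
  carrier := {p | ∃ γ : ℕ → ℝ, p = ∑ j ∈ Finset.range (k + 1), C (γ j) * B j}
  add_mem' := by
    rintro _ _ ⟨γ, rfl⟩ ⟨γ', rfl⟩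
    refine ⟨fun j => γ j + γ' j, ?_⟩
    rw [← Finset.sum_add_distrib]
    refine Finset.sum_congr rfl fun j _ => ?_
    rw [C_add, add_mul]
  zero_mem' := by
    refine ⟨fun _ => 0, ?_⟩
    rw [Finset.sum_eq_zero]
    intro j _
    rw [C_0, zero_mul]
  smul_mem' := by
    rintro c _ ⟨γ, rfl⟩
    refine ⟨fun j => c * γ j, ?_⟩
    rw [Finset.smul_sum]
    refine Finset.sum_congr rfl fun j _ => ?_
    rw [C_mul, smul_eq_C_mul, mul_assoc]

theorem mem_Sp {B : ℕ → ℝ[X]} {k : ℕ} {p : ℝ[X]} :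
    p ∈ Sp B k ↔ ∃ γ : ℕ → ℝ, p = ∑ j ∈ Finset.range (k + 1), C (γ j) * B j := Iff.rfl

theorem B_mem {B : ℕ → ℝ[X]} {k j : ℕ} (h : j ≤ k) : B j ∈ Sp B k := by
  refine ⟨fun i => if i = j then 1 else 0, ?_⟩
  rw [Finset.sum_eq_single j]
  · show B j = C (if j = j then (1 : ℝ) else 0) * B j
    rw [if_pos rfl, C_1, one_mul]
  · intro i _ hij
    show C (if i = j then (1 : ℝ) else 0) * B i = 0
    rw [if_neg hij, C_0, zero_mul]
  · intro h'
    exact absurd (Finset.mem_range.2 (Nat.lt_succ_of_le h)) h'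

theorem Sp_le {B : ℕ → ℝ[X]} {k : ℕ} {W : Submodule ℝ ℝ[X]} (h : ∀ j ≤ k, B j ∈ W) : Sp B k ≤ W := by
  rintro _ ⟨γ, rfl⟩
  refine Submodule.sum_mem _ fun j hj => ?_
  rw [← smul_eq_C_mul]
  exact W.smul_mem _ (h j (Nat.lt_succ_iff.1 (Finset.mem_range.1 hj)))

theorem Sp_le_of_eq {B B' : ℕ → ℝ[X]} {k l : ℕ} (hkl : k ≤ l) (h : ∀ j ≤ k, B j = B' j) :
    Sp B k ≤ Sp B' l :=
  Sp_le fun j hj => by rw [h j hj]; exact B_mem (hj.trans hkl)

theorem comp_mem {B : ℕ → ℝ[X]} {k : ℕ} {W : Submodule ℝ ℝ[X]} (p : ℝ[X])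
    (h : ∀ j ≤ k, (B j).comp p ∈ W) {u : ℝ[X]} (hu : u ∈ Sp B k) : u.comp p ∈ W := by
  obtain ⟨γ, rfl⟩ := hu
  rw [← Polynomial.coe_compRingHom_apply, map_sum]
  refine Submodule.sum_mem _ fun j hj => ?_
  rw [Polynomial.coe_compRingHom_apply, mul_comp, C_comp, ← smul_eq_C_mul]
  exact W.smul_mem _ (h j (Nat.lt_succ_iff.1 (Finset.mem_range.1 hj)))

theorem prog_of {m : ℕ} {B : ℕ → ℝ[X]} (h0 : B 0 = 1) (h1 : B 1 = X)
    (h : ∀ k, 1 ≤ k → k ≤ m → ∃ u ∈ Sp B k, ∃ v ∈ Sp B k, B (k + 1) = u * v) : Prog m B := by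
  refine ⟨h0, h1, fun k hk hkm => ?_⟩
  obtain ⟨_, ⟨α, rfl⟩, _, ⟨β, rfl⟩, e⟩ := h k hk hkm
  exact ⟨α, β, e⟩

theorem step_of {m : ℕ} {B : ℕ → ℝ[X]} (hB : Prog m B) {k : ℕ} (hk : 1 ≤ k) (hkm : k ≤ m) :
    ∃ u ∈ Sp B k, ∃ v ∈ Sp B k, B (k + 1) = u * v := by
  obtain ⟨α, β, e⟩ := hB.step k hk hkm
  exact ⟨_, ⟨α, rfl⟩, _, ⟨β, rfl⟩, e⟩

theorem mem_PiStar {m : ℕ} {p : ℝ[X]} : p ∈ PiStar m ↔ ∃ B, Prog m B ∧ p ∈ Sp B (m + 1) := Iff.rfl

theorem deg_Sp {B : ℕ → ℝ[X]} {k d : ℕ} (h : ∀ j ≤ k, (B j).natDegree ≤ d) {u : ℝ[X]}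
    (hu : u ∈ Sp B k) : u.natDegree ≤ d := by
  obtain ⟨γ, rfl⟩ := hu
  refine natDegree_sum_le_of_forall_le _ _ fun j hj => ?_
  exact (natDegree_C_mul_le _ _).trans (h j (Nat.lt_succ_iff.1 (Finset.mem_range.1 hj)))

theorem deg_B {m : ℕ} {B : ℕ → ℝ[X]} (hB : Prog m B) :
    ∀ k ≤ m + 1, (B k).natDegree ≤ 2 ^ (k - 1) := by
  intro k
  induction k using Nat.strong_induction_on with
  | _ k ih =>
    intro hk
    rcases Nat.lt_or_ge k 2 with h2 | h2
    · have : k = 0 ∨ k = 1 := by omega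
      rcases this with rfl | rfl
      · rw [hB.zero, natDegree_one]
        exact Nat.zero_le _
      · rw [hB.one, natDegree_X]
        exact le_rfl
    · obtain ⟨l, rfl⟩ : ∃ l, k = l + 1 := ⟨k - 1, by omega⟩
      obtain ⟨u, hu, v, hv, e⟩ := step_of hB (k := l) (by omega) (by omega)
      have hd : ∀ j ≤ l, (B j).natDegree ≤ 2 ^ (l - 1) := fun j hj =>
        (ih j (by omega) (by omega)).trans (Nat.pow_le_pow_right (by norm_num) (by omega))
      rw [e]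
      refine natDegree_mul_le.trans ((Nat.add_le_add (deg_Sp hd hu) (deg_Sp hd hv)).trans ?_)
      have : 2 ^ (l + 1 - 1) = 2 ^ (l - 1) + 2 ^ (l - 1) := by
        rw [← two_mul, ← pow_succ']
        congr 1
        omega
      rw [this]

theorem mono {m n : ℕ} (hmn : m ≤ n) : PiStar m ⊆ PiStar n := by
  intro p hp
  obtain ⟨B, hB, hpB⟩ := mem_PiStar.1 hp
  let B' : ℕ → ℝ[X] := fun j => if j ≤ m + 1 then B j else 0
  have hB' : ∀ j ≤ m + 1, B j = B' j := fun j hj => (if_pos hj).symm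
  refine mem_PiStar.2 ⟨B', prog_of ?_ ?_ ?_, Sp_le_of_eq (by omega) hB' hpB⟩
  · rw [← hB' 0 (by omega)]
    exact hB.zero
  · rw [← hB' 1 (by omega)]
    exact hB.one
  · intro k hk hkn
    rcases Nat.lt_or_ge m k with h | h
    · refine ⟨0, Submodule.zero_mem _, 0, Submodule.zero_mem _, ?_⟩
      rw [mul_zero]
      exact if_neg (by omega)
    · obtain ⟨u, hu, v, hv, e⟩ := step_of hB hk h
      have hle : Sp B k ≤ Sp B' k := Sp_le_of_eq le_rfl fun j hj => hB' j (by omega)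
      exact ⟨u, hle hu, v, hle hv, by rw [← hB' (k + 1) (by omega)]; exact e⟩

theorem comp {m n : ℕ} {p q : ℝ[X]} (hp : p ∈ PiStar m) (hq : q ∈ PiStar n) :
    q.comp p ∈ PiStar (m + n) := by
  obtain ⟨B, hB, hpB⟩ := mem_PiStar.1 hp
  obtain ⟨B', hB', hqB⟩ := mem_PiStar.1 hq
  let D : ℕ → ℝ[X] := fun j => if j ≤ m + 1 then B j else (B' (j - m)).comp p
  have hD : ∀ j ≤ m + 1, B j = D j := fun j hj => (if_pos hj).symm
  have hD0 : D 0 = 1 := by rw [← hD 0 (by omega)]; exact hB.zero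
  have hD' : ∀ i, 2 ≤ i → D (m + i) = (B' i).comp p := by
    intro i hi
    have : D (m + i) = (B' (m + i - m)).comp p := if_neg (by omega)
    rw [this, Nat.add_sub_cancel_left]
  have hcomp : ∀ k, 1 ≤ k → ∀ u ∈ Sp B' k, u.comp p ∈ Sp D (m + k) := by
    intro k hk u hu
    refine comp_mem p ?_ hu
    intro j hj
    rcases Nat.lt_or_ge j 2 with h2 | h2
    · have : j = 0 ∨ j = 1 := by omega
      rcases this with rfl | rfl
      · rw [hB'.zero, one_comp, ← hD0]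
        exact B_mem (Nat.zero_le _)
      · rw [hB'.one, X_comp]
        exact Sp_le_of_eq (by omega) hD hpB
    · rw [← hD' j h2]
      exact B_mem (by omega)
  refine mem_PiStar.2 ⟨D, prog_of hD0 ?_ ?_, ?_⟩
  · rw [← hD 1 (by omega)]
    exact hB.one
  · intro k hk hkn
    rcases Nat.lt_or_ge m k with h | h
    · obtain ⟨i, rfl⟩ : ∃ i, k = m + i := ⟨k - m, by omega⟩
      obtain ⟨u, hu, v, hv, e⟩ := step_of hB' (k := i) (by omega) (by omega)
      refine ⟨u.comp p, hcomp i (by omega) u hu, v.comp p, hcomp i (by omega) v hv, ?_⟩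
      rw [← mul_comp, ← e, add_assoc]
      exact hD' (i + 1) (by omega)
    · obtain ⟨u, hu, v, hv, e⟩ := step_of hB hk h
      have hle : Sp B k ≤ Sp D k := Sp_le_of_eq le_rfl fun j hj => hD j (by omega)
      exact ⟨u, hle hu, v, hle hv, by rw [← hD (k + 1) (by omega)]; exact e⟩
  · rw [add_assoc]
    exact hcomp (n + 1) (by omega) q hqB

/-- the program `1, X, X², X³` -/
def B3 : ℕ → ℝ[X]
  | 0 => 1
  | 1 => X
  | 2 => X * X
  | 3 => X * X * X
  | _ => 0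

theorem prog3 (m : ℕ) (hm : m ≤ 2) : Prog m B3 := by
  refine prog_of rfl rfl ?_
  intro k hk hkm
  have : k = 1 ∨ k = 2 := by omega
  rcases this with rfl | rfl
  · exact ⟨B3 1, B_mem le_rfl, B3 1, B_mem le_rfl, rfl⟩
  · exact ⟨B3 2, B_mem le_rfl, B3 1, B_mem (by norm_num), rfl⟩

theorem X_mem : (X : ℝ[X]) ∈ PiStar 0 :=
  mem_PiStar.2 ⟨B3, prog3 0 (by norm_num), B_mem (B := B3) (j := 1) le_rfl⟩

theorem cubic_mem (a b : ℝ) : C a * X + C b * X ^ 3 ∈ PiStar 2 := by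
  refine mem_PiStar.2 ⟨B3, prog3 2 le_rfl, Submodule.add_mem _ ?_ ?_⟩
  · rw [← smul_eq_C_mul]
    exact Submodule.smul_mem _ _ (B_mem (B := B3) (j := 1) (by norm_num))
  · rw [← smul_eq_C_mul]
    refine Submodule.smul_mem _ _ ?_
    have h3 : (X : ℝ[X]) ^ 3 = B3 3 := by
      show (X : ℝ[X]) ^ 3 = X * X * X
      ring
    rw [h3]
    exact B_mem (by norm_num)

end AlgAux

open AlgAux in
/-- SG-ALG -/
theorem alg : AlgStm := by
  refine ⟨?_, ?_, fun m n h => mono h, fun m n p q hp hq => comp hp hq, ?_⟩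
  · intro m p hp
    obtain ⟨B, hB, hpB⟩ := mem_PiStar.1 hp
    refine deg_Sp (fun j hj => (deg_B hB j hj).trans ?_) hpB
    exact Nat.pow_le_pow_right (by norm_num) (by omega)
  · intro m p a b hp
    obtain ⟨B, hB, hpB⟩ := mem_PiStar.1 hp
    refine mem_PiStar.2 ⟨B, hB, Submodule.add_mem _ ?_ ?_⟩
    · rw [← smul_eq_C_mul]
      exact Submodule.smul_mem _ _ hpB
    · have h1 : (C b : ℝ[X]) = b • B 0 := by rw [hB.zero, smul_eq_C_mul, mul_one]
      rw [h1]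
      exact Submodule.smul_mem _ _ (B_mem (Nat.zero_le _))
  · intro T
    induction T with
    | zero =>
      intro p hp
      rw [show p = X from hp]
      exact X_mem
    | succ T ih =>
      rintro p ⟨q, hq, a, b, rfl⟩
      have h1 := comp (ih hq) (cubic_mem a b)
      exact h1

end Pool.Agent.H256.SG
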