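import Pool.Agent.H256.SG.Stm

/-! Project SG, task CL (helper54): lower bound for compositions of odd cubics. -/

set_option autoImplicit false

open Polynomial

namespace Pool.Agent.H256.SG.CLA

/-- the contraction step -/
theorem step3 (r ρ L c1 c2 c3 : ℝ) (hr0 : 0 ≤ r) (hr1 : r < 1) (hρ : 0 ≤ ρ) (hL : L ≠ 0)
    (h : (2 + r) * (1 + r) * c1 - 4 * (1 - r ^ 2) * c2 + (2 - r) * (1 - r) * c3 = 0)
    (h1 : |c1 - L| ≤ ρ * |L|) (h2 : |c2 - L| ≤ ρ * |L|) (h3 : |c3 - L| ≤ ρ * |L|) :
    3 / 4 * r ^ 2 ≤ ρ := by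
  have hLp : 0 < |L| := abs_pos.2 hL
  have e : 6 * r ^ 2 * L = -((2 + r) * (1 + r) * (c1 - L)) + 4 * (1 - r ^ 2) * (c2 - L) -
      (2 - r) * (1 - r) * (c3 - L) := by
    linear_combination h
  have k1 : 0 ≤ (2 + r) * (1 + r) := by positivity
  have k2 : 0 ≤ 4 * (1 - r ^ 2) := by nlinarith
  have k3 : 0 ≤ (2 - r) * (1 - r) := mul_nonneg (by linarith) (by linarith)
  have e2 : 6 * r ^ 2 * |L| ≤ (8 - 2 * r ^ 2) * (ρ * |L|) := by
    calc 6 * r ^ 2 * |L| = |6 * r ^ 2 * L| := by
          rw [abs_mul, abs_of_nonneg (by positivity : (0:ℝ) ≤ 6 * r ^ 2)]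
      _ = |-((2 + r) * (1 + r) * (c1 - L)) + 4 * (1 - r ^ 2) * (c2 - L) -
            (2 - r) * (1 - r) * (c3 - L)| := by rw [e]
      _ ≤ |(2 + r) * (1 + r) * (c1 - L)| + |4 * (1 - r ^ 2) * (c2 - L)| +
            |(2 - r) * (1 - r) * (c3 - L)| := by
          refine (abs_sub _ _).trans ?_
          have := abs_add_le (-((2 + r) * (1 + r) * (c1 - L))) (4 * (1 - r ^ 2) * (c2 - L))
          rw [abs_neg] at this
          linarith
      _ = (2 + r) * (1 + r) * |c1 - L| + 4 * (1 - r ^ 2) * |c2 - L| +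
            (2 - r) * (1 - r) * |c3 - L| := by
          rw [abs_mul, abs_mul (4 * (1 - r ^ 2)), abs_mul ((2 - r) * (1 - r)), abs_of_nonneg k1,
            abs_of_nonneg k2, abs_of_nonneg k3]
      _ ≤ (2 + r) * (1 + r) * (ρ * |L|) + 4 * (1 - r ^ 2) * (ρ * |L|) +
            (2 - r) * (1 - r) * (ρ * |L|) := by
          have a1 := mul_le_mul_of_nonneg_left h1 k1
          have a2 := mul_le_mul_of_nonneg_left h2 k2
          have a3 := mul_le_mul_of_nonneg_left h3 k3
          linarith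
      _ = (8 - 2 * r ^ 2) * (ρ * |L|) := by ring
  have e3 : (8 - 2 * r ^ 2) * (ρ * |L|) ≤ 8 * (ρ * |L|) := by
    have : 0 ≤ r ^ 2 * (ρ * |L|) := by positivity
    linarith
  have e4 : 6 * r ^ 2 * |L| ≤ 8 * ρ * |L| := by linarith
  have e5 := le_of_mul_le_mul_right e4 hLp
  linarith

theorem claim (d : ℝ) (hd0 : 0 < d) (hd1 : d < 1) : ∀ (T : ℕ) (p : ℝ[X]), p ∈ PiComp T →
    ∀ (L ρ : ℝ), L ≠ 0 → 0 ≤ ρ → ρ < 1 → (∀ x ∈ Set.Icc d 1, |p.eval x - L| ≤ ρ * |L|) →
    4 / 3 * (3 / 4 * ((1 - d) / (1 + d))) ^ (2 ^ T) ≤ ρ := by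
  intro T
  induction T with
  | zero =>
    intro p hp L ρ hL hρ0 hρ1 h
    have hp' : p = X := hp
    subst hp'
    have h1 := h 1 ⟨hd1.le, le_rfl⟩
    have h2 := h d ⟨le_rfl, hd1.le⟩
    rw [eval_X] at h1 h2
    have hLp : 0 < L := by
      rcases lt_or_gt_of_ne hL with hneg | hpos
      · exfalso
        rw [abs_of_neg hneg, abs_le] at h1
        nlinarith
      · exact hpos
    rw [abs_of_pos hLp, abs_le] at h1 h2
    rw [pow_zero, pow_one]
    have e : 4 / 3 * (3 / 4 * ((1 - d) / (1 + d))) = (1 - d) / (1 + d) := by ring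
    rw [e, div_le_iff₀ (by linarith)]
    nlinarith
  | succ T ih =>
    intro p hp L ρ hL hρ0 hρ1 h
    obtain ⟨q, hq, a, b, rfl⟩ := hp
    have hev : ∀ x, ((C a * X + C b * X ^ 3).comp q).eval x = a * q.eval x + b * q.eval x ^ 3 := by
      intro x
      simp [eval_comp]
    have him := ContinuousOn.image_Icc hd1.le (f := fun x => q.eval x) q.continuous.continuousOn
    set u := sInf ((fun x => q.eval x) '' Set.Icc d 1) with hu
    set v := sSup ((fun x => q.eval x) '' Set.Icc d 1) with hv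
    have hmem : ∀ x ∈ Set.Icc d 1, q.eval x ∈ Set.Icc u v := by
      intro x hx
      rw [← him]
      exact ⟨x, hx, rfl⟩
    have hval : ∀ y ∈ Set.Icc u v, |a * y + b * y ^ 3 - L| ≤ ρ * |L| := by
      intro y hy
      rw [← him] at hy
      obtain ⟨x, hx, rfl⟩ := hy
      have := h x hx
      rwa [hev] at this
    have hLp : 0 < |L| := abs_pos.2 hL
    have h0 : (0 : ℝ) ∉ Set.Icc u v := by
      intro h0
      have := hval 0 h0
      simp only [mul_zero, ne_eq, OfNat.ofNat_ne_zero, not_false_eq_true, zero_pow, add_zero,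
        zero_sub, abs_neg] at this
      nlinarith
    have huv : u ≤ v := by
      have := hmem 1 ⟨hd1.le, le_rfl⟩
      exact this.1.trans this.2
    have hcase : 0 < u ∨ v < 0 := by
      by_contra hc
      push Not at hc
      exact h0 ⟨hc.1, hc.2⟩
    set M := (u + v) / 2 with hM
    set g := (v - u) / 2 with hg
    have hg0 : 0 ≤ g := by linarith
    have hMg : g < |M| := by
      rcases hcase with hc | hc
      · rw [abs_of_pos (by linarith)]; linarith
      · rw [abs_of_neg (by linarith)]; linarith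
    have hMp : 0 < |M| := lt_of_le_of_lt hg0 hMg
    have hM0 : M ≠ 0 := abs_pos.1 hMp
    set r := g / |M| with hr
    have hr0 : 0 ≤ r := div_nonneg hg0 hMp.le
    have hr1 : r < 1 := (div_lt_one hMp).2 hMg
    have hrM : r * |M| = g := div_mul_cancel₀ g hMp.ne'
    have hi := ih q hq M r hM0 hr0 hr1 (by
      intro x hx
      have := hmem x hx
      rw [hrM, abs_le]
      constructor
      · linarith [this.1]
      · linarith [this.2])
    have hy1 : M * (1 - r) ∈ Set.Icc u v := by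
      rcases lt_or_gt_of_ne hM0 with hneg | hpos
      · rw [abs_of_neg hneg] at hrM
        constructor <;> nlinarith
      · rw [abs_of_pos hpos] at hrM
        constructor <;> nlinarith
    have hy3 : M * (1 + r) ∈ Set.Icc u v := by
      rcases lt_or_gt_of_ne hM0 with hneg | hpos
      · rw [abs_of_neg hneg] at hrM
        constructor <;> nlinarith
      · rw [abs_of_pos hpos] at hrM
        constructor <;> nlinarith
    have hy2 : M ∈ Set.Icc u v := by constructor <;> linarith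
    have hs := step3 r ρ L _ _ _ hr0 hr1 hρ0 hL (by ring) (hval _ hy1) (hval _ hy2) (hval _ hy3)
    have hR0 : 0 ≤ 4 / 3 * (3 / 4 * ((1 - d) / (1 + d))) ^ (2 ^ T) := by
      have : 0 ≤ (1 - d) / (1 + d) := div_nonneg (by linarith) (by linarith)
      positivity
    have h5 := pow_le_pow_left₀ hR0 hi 2
    refine le_trans ?_ hs
    calc 4 / 3 * (3 / 4 * ((1 - d) / (1 + d))) ^ (2 ^ (T + 1))
        = 3 / 4 * (4 / 3 * (3 / 4 * ((1 - d) / (1 + d))) ^ (2 ^ T)) ^ 2 := by
          rw [pow_succ 2 T, pow_mul]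
          ring
      _ ≤ 3 / 4 * r ^ 2 := by linarith

end Pool.Agent.H256.SG.CLA

namespace Pool.Agent.H256.SG

theorem compLow : CompLowStm := by
  intro d hd0 hd1
  have hr0 : 0 < (1 - d) / (1 + d) := div_pos (by linarith) (by linarith)
  have hr1 : (1 - d) / (1 + d) < 1 := (div_lt_one (by linarith)).2 (by linarith)
  refine ⟨3 / 4 * ((1 - d) / (1 + d)), by positivity, by linarith, ?_⟩
  intro T p hp
  have ha0 : 0 ≤ 3 / 4 * ((1 - d) / (1 + d)) := by positivity
  have ha1 : 3 / 4 * ((1 - d) / (1 + d)) ≤ 1 := by linarith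
  rcases le_or_gt 1 (err d p) with h1 | h1
  · exact (pow_le_one₀ ha0 ha1).trans h1
  · have hbdd : BddAbove ((fun x : ℝ => abs (p.eval x - x / abs x)) '' II d) := by
      obtain ⟨K, hK⟩ := (isCompact_Icc (a := (-1 : ℝ)) (b := 1)).exists_bound_of_continuousOn
        (f := fun x => p.eval x) p.continuous.continuousOn
      refine ⟨K + 1, ?_⟩
      rintro _ ⟨x, hx, rfl⟩
      have hx' : x ∈ Set.Icc (-1 : ℝ) 1 := by
        rcases hx with hx | hx
        · exact ⟨hx.1, by linarith [hx.2]⟩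
        · exact ⟨by linarith [hx.1], hx.2⟩
      have h2 := hK x hx'
      rw [Real.norm_eq_abs] at h2
      have h3 : abs (x / abs x) ≤ 1 := by
        rw [abs_div, abs_abs]
        exact div_self_le_one _
      show abs (p.eval x - x / abs x) ≤ K + 1
      exact (abs_sub _ _).trans (add_le_add h2 h3)
    have hpt : ∀ x ∈ Set.Icc d 1, |p.eval x - 1| ≤ err d p := by
      intro x hx
      have hx0 : 0 < x := lt_of_lt_of_le hd0 hx.1
      have h2 : abs (p.eval x - x / abs x) ≤ err d p := le_csSup hbdd ⟨x, Or.inr hx, rfl⟩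
      rwa [abs_of_pos hx0, div_self hx0.ne'] at h2
    have he0 : 0 ≤ err d p := (abs_nonneg _).trans (hpt 1 ⟨hd1.le, le_rfl⟩)
    have h3 := CLA.claim d hd0 hd1 T p hp 1 (err d p) one_ne_zero he0 h1 (by
      intro x hx
      rw [abs_one, mul_one]
      exact hpt x hx)
    refine le_trans ?_ h3
    have : 0 ≤ (3 / 4 * ((1 - d) / (1 + d))) ^ (2 ^ T) := by positivity
    linarith

end Pool.Agent.H256.SG
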