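import Pool.Agent.H256.SG.Stm

/-!
# Newton-Schulz (SG-CU, helper308)
-/

open Polynomial

set_option autoImplicit false

noncomputable section

namespace Pool.Agent.H256.SG

namespace CUAux

/-- the iterates -/
def ns : ℕ → ℝ[X]
  | 0 => X
  | T + 1 => (C (3 / 2 : ℝ) * X + C (-1 / 2 : ℝ) * X ^ 3).comp (ns T)

theorem ns_mem (T : ℕ) : ns T ∈ PiComp T := by
  induction T with
  | zero => exact rfl
  | succ T ih => exact ⟨ns T, ih, 3 / 2, -1 / 2, rfl⟩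

theorem step {δ x s : ℝ} (hs : s * s = 1) (hx0 : 0 < s * x) (hx1 : s * x ≤ 1)
    (hx : 1 - x ^ 2 ≤ 1 - δ ^ 2) (T : ℕ) :
    0 < s * (ns T).eval x ∧ s * (ns T).eval x ≤ 1 ∧
      1 - ((ns T).eval x) ^ 2 ≤ (1 - δ ^ 2) ^ (2 ^ T) := by
  induction T with
  | zero => simpa [ns] using ⟨hx0, hx1, by linarith⟩
  | succ T ih =>
    obtain ⟨h1, h2, h3⟩ := ih
    set y : ℝ := (ns T).eval x with hy
    have e : (ns (T + 1)).eval x = 3 / 2 * y + -1 / 2 * y ^ 3 := by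
      simp [ns, hy]
    rw [e]
    set u : ℝ := s * y with hu
    have hy2 : y ^ 2 = u ^ 2 := by
      rw [hu, mul_pow, sq s, hs, one_mul]
    have e2 : s * (3 / 2 * y + -1 / 2 * y ^ 3) = u * (3 - u ^ 2) / 2 := by
      rw [← hy2, hu]; ring
    have hu2 : u ^ 2 ≤ 1 := by nlinarith
    rw [e2]
    refine ⟨by nlinarith, ?_, ?_⟩
    · nlinarith [mul_nonneg (sq_nonneg (1 - u)) (show (0:ℝ) ≤ 2 + u by linarith)]
    · have e3 : 1 - (3 / 2 * y + -1 / 2 * y ^ 3) ^ 2 = (1 - y ^ 2) ^ 2 * ((4 - y ^ 2) / 4) := by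
        ring
      have h4 : 0 ≤ 1 - y ^ 2 := by rw [hy2]; linarith
      rw [e3, pow_succ 2 T, pow_mul]
      calc (1 - y ^ 2) ^ 2 * ((4 - y ^ 2) / 4) ≤ (1 - y ^ 2) ^ 2 * 1 :=
            mul_le_mul_of_nonneg_left (by nlinarith [sq_nonneg y]) (sq_nonneg _)
        _ = (1 - y ^ 2) ^ 2 := mul_one _
        _ ≤ ((1 - δ ^ 2) ^ 2 ^ T) ^ 2 := pow_le_pow_left₀ h4 h3 2

end CUAux

open CUAux in
theorem compUp : CompUpStm := by
  intro δ h0 h1
  refine ⟨1 - δ ^ 2, by nlinarith, by nlinarith, fun T => ⟨ns T, ns_mem T, ?_⟩⟩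
  unfold err
  refine csSup_le ⟨_, ⟨1, Or.inr ⟨h1.le, le_refl _⟩, rfl⟩⟩ ?_
  rintro z ⟨x, hx, rfl⟩
  obtain ⟨s, hs, hsx, hd, hx1⟩ : ∃ s : ℝ, s * s = 1 ∧ x / |x| = s ∧ δ ≤ s * x ∧ s * x ≤ 1 := by
    rcases hx with hx | hx
    · have hneg : x < 0 := by linarith [hx.2]
      refine ⟨-1, by norm_num, ?_, by linarith [hx.2], by linarith [hx.1]⟩
      rw [abs_of_neg hneg, div_neg, div_self hneg.ne]
    · have hpos : 0 < x := by linarith [hx.1]
      refine ⟨1, by norm_num, ?_, by linarith [hx.1], by linarith [hx.2]⟩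
      rw [abs_of_pos hpos, div_self hpos.ne']
  have hx2 : x ^ 2 = (s * x) ^ 2 := by rw [mul_pow, sq s, hs, one_mul]
  have hxd : 1 - x ^ 2 ≤ 1 - δ ^ 2 := by rw [hx2]; nlinarith
  obtain ⟨a1, a2, a3⟩ := step hs (by linarith) hx1 hxd T
  simp only [hsx]
  set y : ℝ := (ns T).eval x with hy
  have hy2 : y ^ 2 = (s * y) ^ 2 := by rw [mul_pow, sq s, hs, one_mul]
  have hs1 : |s| = 1 := by
    have : |s| * |s| = 1 := by rw [← abs_mul, hs, abs_one]
    nlinarith [abs_nonneg s]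
  have e : |y - s| = 1 - s * y := by
    have e1 : y - s = s * (s * y - 1) := by linear_combination (-y) * hs
    rw [e1, abs_mul, hs1, one_mul, abs_of_nonpos (by linarith)]
    ring
  rw [e]
  refine le_trans ?_ a3
  rw [hy2]
  nlinarith

end Pool.Agent.H256.SG
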