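import Mathlib

/-!
# MP_8bd86c_an: compositions of odd cubics versus polynomials computed with `m` products
-/

open Polynomial

noncomputable section

namespace Pool.Agent.H256.SG

/-- `I = [-1,-δ] ∪ [δ,1]`. -/
def II (δ : ℝ) : Set ℝ := Set.Icc (-1) (-δ) ∪ Set.Icc δ 1

/-- `‖p - sgn‖_I`, `sgn x = x / |x|`. -/
def err (δ : ℝ) (p : ℝ[X]) : ℝ := sSup ((fun x : ℝ => abs (p.eval x - x / abs x)) '' II δ)

/-- Programs with `m` products: `B₀ = 1`, `B₁ = X` and, for `1 ≤ k ≤ m`,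
`B_{k+1} = (∑_{j ≤ k} α_j B_j) (∑_{j ≤ k} β_j B_j)` with real scalars. -/
structure Prog (m : ℕ) (B : ℕ → ℝ[X]) : Prop where
  zero : B 0 = 1
  one : B 1 = X
  step : ∀ k, 1 ≤ k → k ≤ m → ∃ α β : ℕ → ℝ,
    B (k + 1) = (∑ j ∈ Finset.range (k + 1), C (α j) * B j) *
      (∑ j ∈ Finset.range (k + 1), C (β j) * B j)

/-- `Π*_{2^m}`: the polynomials `∑_{j ≤ m+1} γ_j B_j` computed with `m` products. -/
def PiStar (m : ℕ) : Set ℝ[X] :=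
  {p | ∃ B : ℕ → ℝ[X], Prog m B ∧ ∃ γ : ℕ → ℝ, p = ∑ j ∈ Finset.range (m + 2), C (γ j) * B j}

/-- `ε*_m = inf {‖p - sgn‖_I : p ∈ Π*_{2^m}}`. -/
def epsStar (δ : ℝ) (m : ℕ) : ℝ := sInf (err δ '' PiStar m)

/-- Compositions of `T` odd cubics `a x + b x³`. -/
def PiComp : ℕ → Set ℝ[X]
  | 0 => {X}
  | T + 1 => {p | ∃ q ∈ PiComp T, ∃ a b : ℝ, p = (C a * X + C b * X ^ 3).comp q}

/-- `ε^comp_{2T}`. -/
def epsComp (δ : ℝ) (T : ℕ) : ℝ := sInf (err δ '' PiComp T)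

/-- `T(m,δ)`, the least `T ≥ 1` with `ε^comp_{2T} ≤ ε*_m`. -/
def TT (m : ℕ) (δ : ℝ) : ℕ := sInf {T : ℕ | 1 ≤ T ∧ epsComp δ T ≤ epsStar δ m}

end Pool.Agent.H256.SG
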