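import Pool.Agent.H256.SG.Stm

/-!
# An explicit program with four products, from the system
-/

open Polynomial

noncomputable section

namespace Pool.Agent.H256.SG

namespace FA

/-- a sequence with the given first six entries -/
def v6 (a0 a1 a2 a3 a4 a5 : ℝ) : ℕ → ℝ
  | 0 => a0
  | 1 => a1
  | 2 => a2
  | 3 => a3
  | 4 => a4
  | 5 => a5
  | _ => 0

/-- the program -/
def Bp (r s1 s2 d lam kap q0 q1 e e1 e2 : ℝ) : ℕ → ℝ[X]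
  | 0 => 1
  | 1 => X
  | 2 => X * X
  | 3 => (X * X) * (X * X + C r * X)
  | 4 => ((X * X) * (X * X + C r * X) + C (s2 / 2 - 1) * (X * X) + C (s1 / 2 - d) * X) *
      ((X * X) * (X * X + C r * X) + C (s2 / 2 + 1) * (X * X) + C (s1 / 2 + d) * X)
  | _ => (((X * X) * (X * X + C r * X) + C (s2 / 2 - 1) * (X * X) + C (s1 / 2 - d) * X) *
        ((X * X) * (X * X + C r * X) + C (s2 / 2 + 1) * (X * X) + C (s1 / 2 + d) * X) +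
        C (lam - e) * ((X * X) * (X * X + C r * X)) + C (kap - e2) * (X * X) +
        C (q1 - e1) * X + C q0) *
      (((X * X) * (X * X + C r * X) + C (s2 / 2 - 1) * (X * X) + C (s1 / 2 - d) * X) *
        ((X * X) * (X * X + C r * X) + C (s2 / 2 + 1) * (X * X) + C (s1 / 2 + d) * X) +
        C (lam + e) * ((X * X) * (X * X + C r * X)) + C (kap + e2) * (X * X) +
        C (q1 + e1) * X + C q0)

lemma prog (r s1 s2 d lam kap q0 q1 e e1 e2 : ℝ) :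
    Prog 4 (Bp r s1 s2 d lam kap q0 q1 e e1 e2) := by
  refine ⟨rfl, rfl, fun k h1 h4 => ?_⟩
  interval_cases k
  · refine ⟨v6 0 1 0 0 0 0, v6 0 1 0 0 0 0, ?_⟩
    simp [Finset.sum_range_succ, v6, Bp]
  · refine ⟨v6 0 0 1 0 0 0, v6 0 r 1 0 0 0, ?_⟩
    simp [Finset.sum_range_succ, v6, Bp]
    ring
  · refine ⟨v6 0 (s1 / 2 - d) (s2 / 2 - 1) 1 0 0, v6 0 (s1 / 2 + d) (s2 / 2 + 1) 1 0 0, ?_⟩
    simp only [Finset.sum_range_succ, Finset.sum_range_zero, v6, Bp, map_zero, map_one]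
    ring
  · refine ⟨v6 q0 (q1 - e1) (kap - e2) (lam - e) 1 0, v6 q0 (q1 + e1) (kap + e2) (lam + e) 1 0, ?_⟩
    simp only [Finset.sum_range_succ, Finset.sum_range_zero, v6, Bp, map_one]
    ring

lemma quart (x r s1 s2 d lam kap q0 q1 q2 q3 q4 q5 q6 q7 α : ℝ) (hr : r = q7 / 2)
    (hα : α = q6 - r ^ 2) (hs2 : s2 = α) (hs1 : s1 = q5 - r * α)
    (hlam : lam = q4 + 1 - s2 ^ 2 / 4 - r * s1) (hd : 2 * d = s2 * s1 / 2 + lam * r - q3)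
    (hkap : kap = q2 - s1 ^ 2 / 4 + d ^ 2) :
    ((x * x) * (x * x + r * x) + (s2 / 2 - 1) * (x * x) + (s1 / 2 - d) * x) *
      ((x * x) * (x * x + r * x) + (s2 / 2 + 1) * (x * x) + (s1 / 2 + d) * x) +
      lam * ((x * x) * (x * x + r * x)) + kap * (x * x) + q1 * x + q0 =
    x ^ 8 + q7 * x ^ 7 + q6 * x ^ 6 + q5 * x ^ 5 + q4 * x ^ 4 + q3 * x ^ 3 + q2 * x ^ 2 +
      q1 * x + q0 := by
  linear_combination 2 * x ^ 7 * hr + x ^ 6 * hα + x ^ 6 * hs2 + x ^ 5 * hs1 + r * x ^ 5 * hs2 +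
    x ^ 4 * hlam - x ^ 3 * hd + x ^ 2 * hkap

lemma value {τ q0 q1 q2 q3 q4 q5 q6 q7 w r α β R3 R4 R5 R6 : ℝ}
    (S : Sys τ q0 q1 q2 q3 q4 q5 q6 q7 w r α β R3 R4 R5 R6) (e e1 e2 l : ℝ) (he : e * e = w)
    (he2 : 2 * e * e2 = w * α - R6) (he1 : 2 * e * e1 = β)
    (hl : l = R4 - w * q4 + r * β + e2 ^ 2) (x : ℝ) :
    (x ^ 8 + q7 * x ^ 7 + q6 * x ^ 6 + q5 * x ^ 5 + q4 * x ^ 4 + q3 * x ^ 3 + q2 * x ^ 2 +
      q1 * x + q0) ^ 2 -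
      (e * ((x * x) * (x * x + r * x)) + e2 * (x * x) + e1 * x) ^ 2 +
      w * (x ^ 8 + q7 * x ^ 7 + q6 * x ^ 6 + q5 * x ^ 5 + q4 * x ^ 4 + q3 * x ^ 3 + q2 * x ^ 2 +
      q1 * x + q0) + l * ((x * x) * (x * x + r * x)) +
      (-(2 * q0 * q2 + q1 ^ 2) - w * q2 + e1 ^ 2) * (x * x) + (-(2 * q0 * q1) - w * q1) * x +
      (-(q0 ^ 2) - w * q0) =
    x ^ 10 * ((x - 1) ^ 6 + τ / 2002 * (1 + 10 * (1 - x) + 55 * (1 - x) ^ 2 + 220 * (1 - x) ^ 3 +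
      715 * (1 - x) ^ 4 + 2002 * (1 - x) ^ 5)) := by
  have hw := S.hw
  have hy3 : w * q3 - 2 * e1 * e2 + r * l - R3 = 0 := by
    have h1 : w * (w * q3 - 2 * e1 * e2 + r * l - R3) = 0 := by
      have hq := S.quad
      rw [← he2, ← he1] at hq
      rw [hl, ← he1]
      linear_combination hq + (2 * e1 * e2 - r * e2 ^ 2) * he
    rcases mul_eq_zero.mp h1 with h2 | h2
    · exact absurd h2 hw.ne'
    · exact h2
  have hr := S.hr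
  have hα := S.hα
  have hβ := S.hβ
  linear_combination x ^ 15 * S.e7 + x ^ 14 * S.e6 + x ^ 13 * S.e5 + x ^ 12 * S.e4 +
    x ^ 11 * S.e3 + x ^ 10 * S.e2 + x ^ 9 * S.e1 + x ^ 8 * S.e0 + 2 * x ^ 7 * S.r7 +
    x ^ 6 * S.h6 + x ^ 5 * S.h5 + x ^ 4 * S.h4 + x ^ 3 * S.h3 + x ^ 3 * hy3 -
    (x ^ 4 + r * x ^ 3) ^ 2 * he - (x ^ 4 + r * x ^ 3) * x ^ 2 * he2 -
    (x ^ 4 + r * x ^ 3) * x * he1 - 2 * w * x ^ 7 * hr - w * x ^ 6 * hα - x ^ 5 * hβ +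
    x ^ 4 * hl

/-- the polynomial `(y - 1)^6 + τ / 2002 * S` -/
def Hp (τ : ℝ) : ℝ[X] := (X - 1) ^ 6 + C (τ / 2002) * (1 + C 10 * (1 - X) + C 55 * (1 - X) ^ 2 +
  C 220 * (1 - X) ^ 3 + C 715 * (1 - X) ^ 4 + C 2002 * (1 - X) ^ 5)

/-- the polynomial `W` -/
def Wp : ℝ[X] := 1 + C 6 * X + C 21 * X ^ 2 + C 56 * X ^ 3 + C 126 * X ^ 4 + C 252 * X ^ 5 +
  C 462 * X ^ 6 + C 792 * X ^ 7 + C 1287 * X ^ 8 + C 2002 * X ^ 9

lemma memM {τ q0 q1 q2 q3 q4 q5 q6 q7 w r α β R3 R4 R5 R6 : ℝ}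
    (S : Sys τ q0 q1 q2 q3 q4 q5 q6 q7 w r α β R3 R4 R5 R6) : X ^ 10 * Hp τ ∈ PiStar 4 := by
  have hw := S.hw
  obtain ⟨e, he0, he⟩ : ∃ e : ℝ, e ≠ 0 ∧ e * e = w :=
    ⟨Real.sqrt w, (Real.sqrt_pos.mpr hw).ne', Real.mul_self_sqrt hw.le⟩
  obtain ⟨e2, he2⟩ : ∃ e2 : ℝ, 2 * e * e2 = w * α - R6 :=
    ⟨(w * α - R6) / (2 * e), by field_simp⟩
  obtain ⟨e1, he1⟩ : ∃ e1 : ℝ, 2 * e * e1 = β := ⟨β / (2 * e), by field_simp⟩
  obtain ⟨l, hl⟩ : ∃ l : ℝ, l = R4 - w * q4 + r * β + e2 ^ 2 := ⟨_, rfl⟩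
  obtain ⟨s2, hs2⟩ : ∃ s2 : ℝ, s2 = α := ⟨_, rfl⟩
  obtain ⟨s1, hs1⟩ : ∃ s1 : ℝ, s1 = q5 - r * α := ⟨_, rfl⟩
  obtain ⟨lam, hlam⟩ : ∃ lam : ℝ, lam = q4 + 1 - s2 ^ 2 / 4 - r * s1 := ⟨_, rfl⟩
  obtain ⟨d, hd⟩ : ∃ d : ℝ, 2 * d = s2 * s1 / 2 + lam * r - q3 :=
    ⟨(s2 * s1 / 2 + lam * r - q3) / 2, by ring⟩
  obtain ⟨kap, hkap⟩ : ∃ kap : ℝ, kap = q2 - s1 ^ 2 / 4 + d ^ 2 := ⟨_, rfl⟩
  refine ⟨Bp r s1 s2 d lam kap q0 q1 e e1 e2, prog _ _ _ _ _ _ _ _ _ _ _,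
    v6 (w * q0 + (-(q0 ^ 2) - w * q0)) (w * q1 + (-(2 * q0 * q1) - w * q1))
      (w * kap + (-(2 * q0 * q2 + q1 ^ 2) - w * q2 + e1 ^ 2)) (w * lam + l) w 1, ?_⟩
  refine Polynomial.funext fun x => ?_
  have h1 := quart x r s1 s2 d lam kap q0 q1 q2 q3 q4 q5 q6 q7 α S.hr S.hα hs2 hs1 hlam hd hkap
  have h2 := value S e e1 e2 l he he2 he1 hl x
  rw [← h1] at h2
  have h3 : (X ^ 10 * Hp τ).eval x = x ^ 10 * ((x - 1) ^ 6 + τ / 2002 * (1 + 10 * (1 - x) +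
      55 * (1 - x) ^ 2 + 220 * (1 - x) ^ 3 + 715 * (1 - x) ^ 4 + 2002 * (1 - x) ^ 5)) := by
    simp only [Hp, eval_mul, eval_pow, eval_X, eval_add, eval_sub, eval_one, eval_C]
  rw [h3, ← h2]
  simp only [Finset.sum_range_succ, Finset.sum_range_zero, v6, Bp, eval_mul, eval_pow, eval_X,
    eval_add, eval_one, eval_C, eval_zero]
  ring

lemma one_sub (τ : ℝ) (hτ : τ ≠ 0) :
    1 - C (2002 / τ) * (X ^ 10 * Hp τ) = (1 - X) ^ 6 * (Wp - C (2002 / τ) * X ^ 10) := by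
  refine Polynomial.funext fun x => ?_
  simp only [Hp, Wp, eval_mul, eval_pow, eval_X, eval_add, eval_sub, eval_one, eval_C]
  field_simp
  ring

lemma X_mem : (X : ℝ[X]) ∈ PiStar 0 := by
  refine ⟨fun k => if k = 0 then 1 else X, ⟨by simp, by simp, fun k h1 h2 => by omega⟩,
    v6 0 1 0 0 0 0, ?_⟩
  simp [Finset.sum_range_succ, v6]

end FA

open FA in
theorem fourA (hA : AlgStm) : SysStm → FourStm := by
  rintro ⟨τ, q0, q1, q2, q3, q4, q5, q6, q7, w, r, α, β, R3, R4, R5, R6, S⟩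
  have hM := memM S
  have hτ := S.hτ
  have h1 := hA.2.1 4 _ (-2 * (2002 / τ)) 1 hM
  have h2 := hA.2.1 0 _ (-(1 / 2)) (1 / 2) X_mem
  have h3 := hA.2.2.2.1 0 4 _ _ h2 h1
  refine ⟨_, h3, ?_, ?_⟩
  · refine ⟨C (-2 * (2002 / τ) * (1 / 2) ^ 10) * (Hp τ).comp (C (-(1 / 2)) * X + C (1 / 2)), ?_⟩
    refine Polynomial.funext fun x => ?_
    simp only [eval_comp, eval_mul, eval_pow, eval_X, eval_add, eval_sub, eval_one, eval_C,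
      map_one, add_comp, mul_comp, C_comp, pow_comp, X_comp, one_comp]
    ring
  · refine ⟨C (2 * (1 / 2) ^ 6) *
      (Wp - C (2002 / τ) * X ^ 10).comp (C (-(1 / 2)) * X + C (1 / 2)), ?_⟩
    refine Polynomial.funext fun x => ?_
    have h4 := congrArg (fun p => p.eval (-(1 / 2) * x + 1 / 2)) (one_sub τ hτ.ne')
    simp only [eval_mul, eval_pow, eval_X, eval_sub, eval_one, eval_C] at h4
    simp only [eval_comp, eval_mul, eval_pow, eval_X, eval_add, eval_sub, eval_one, eval_C,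
      map_one, add_comp, mul_comp, C_comp, pow_comp, X_comp, one_comp]
    linear_combination 2 * h4

end Pool.Agent.H256.SG
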