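import Pool.Agent.H256.SG.Stm

/-!
# Job SG-FB (helper385): the system has a real solution
-/

set_option autoImplicit false

namespace Pool.Agent.H256.SG.FBaux

noncomputable def q7 (t : ℝ) : ℝ := (-6 - t) / 2

noncomputable def q6 (t : ℝ) : ℝ := (15 + 75 / 14 * t - q7 t * q7 t) / 2

noncomputable def q5 (t : ℝ) : ℝ := (-20 - 150 / 13 * t - 2 * (q7 t * q6 t)) / 2

noncomputable def q4 (t : ℝ) : ℝ := (15 + 25 / 2 * t - 2 * (q7 t * q5 t) - q6 t * q6 t) / 2

noncomputable def q3 (t : ℝ) : ℝ := (-6 - 75 / 11 * t - 2 * (q7 t * q4 t) - 2 * (q6 t * q5 t)) / 2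

noncomputable def q2 (t : ℝ) : ℝ :=
  (1 + 3 / 2 * t - 2 * (q7 t * q3 t) - 2 * (q6 t * q4 t) - q5 t * q5 t) / 2

noncomputable def q1 (t : ℝ) : ℝ := -(q7 t * q2 t + q6 t * q3 t + q5 t * q4 t)

noncomputable def q0 (t : ℝ) : ℝ :=
  -(2 * (q7 t * q1 t) + 2 * (q6 t * q2 t) + 2 * (q5 t * q3 t) + q4 t * q4 t) / 2

noncomputable def FF (t : ℝ) : ℝ := q0 t * q7 t + q1 t * q6 t + q2 t * q5 t + q3 t * q4 t

theorem c7 : Continuous q7 := by unfold q7; fun_prop

theorem c6 : Continuous q6 := by
  have h7 := c7
  unfold q6
  fun_prop

theorem c5 : Continuous q5 := by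
  have h7 := c7
  have h6 := c6
  unfold q5
  fun_prop

theorem c4 : Continuous q4 := by
  have h7 := c7
  have h6 := c6
  have h5 := c5
  unfold q4
  fun_prop

theorem c3 : Continuous q3 := by
  have h7 := c7
  have h6 := c6
  have h5 := c5
  have h4 := c4
  unfold q3
  fun_prop

theorem c2 : Continuous q2 := by
  have h7 := c7
  have h6 := c6
  have h5 := c5
  have h4 := c4
  have h3 := c3
  unfold q2
  fun_prop

theorem c1 : Continuous q1 := by
  have h7 := c7
  have h6 := c6
  have h5 := c5
  have h4 := c4
  have h3 := c3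
  have h2 := c2
  unfold q1
  fun_prop

theorem c0 : Continuous q0 := by
  have h7 := c7
  have h6 := c6
  have h5 := c5
  have h4 := c4
  have h3 := c3
  have h2 := c2
  have h1 := c1
  unfold q0
  fun_prop

theorem cF : Continuous FF := by
  have h7 := c7
  have h6 := c6
  have h5 := c5
  have h4 := c4
  have h3 := c3
  have h2 := c2
  have h1 := c1
  have h0 := c0
  unfold FF
  fun_prop

theorem aq7 : q7 (7520255493 / 10000000000) = (-67520255493 / 20000000000) := by
  rw [q7]
  norm_num

theorem aq6 : q6 (7520255493 / 10000000000) = (21367488926620023288657 / 5600000000000000000000) := by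
  rw [q6, aq7]
  norm_num

theorem aq5 : q5 (7520255493 / 10000000000) = (-2121416563719980082063500525042287 / 1456000000000000000000000000000000) := by
  rw [q5, aq7, aq6]
  norm_num

theorem aq4 : q4 (7520255493 / 10000000000) = (287428989614831000477122807122059916772563 / 163072000000000000000000000000000000000000000) := by
  rw [q4, aq7, aq6, aq5]
  norm_num

theorem aq3 : q3 (7520255493 / 10000000000) = (296724975652312548176052245180669254961970669397769043 / 179379200000000000000000000000000000000000000000000000000) := by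
  rw [q3, aq7, aq6, aq5, aq4]
  norm_num

theorem aq2 : q2 (7520255493 / 10000000000) = (933200225539142651605363335467813030280653765806766880625546173327 / 652940288000000000000000000000000000000000000000000000000000000000000) := by
  rw [q2, aq7, aq6, aq5, aq4, aq3]
  norm_num

theorem aq1 : q1 (7520255493 / 10000000000) = (14123052515418172609174266888836199396300825908181800240727214728397502883903 / 13058805760000000000000000000000000000000000000000000000000000000000000000000000) := by
  rw [q1, aq7, aq6, aq5, aq4, aq3, aq2]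
  norm_num

theorem aq0 : q0 (7520255493 / 10000000000) = (8868584790690357579943098647965309556328665587062862901455299901263887979691973809655289 / 14625862451200000000000000000000000000000000000000000000000000000000000000000000000000000000) := by
  rw [q0, aq7, aq6, aq5, aq4, aq3, aq2, aq1]
  norm_num

theorem aFF : FF (7520255493 / 10000000000) = (-1559368894172176766599028702143941107361766734598673841672043052558464061014096476370581 / 108649263923200000000000000000000000000000000000000000000000000000000000000000000000000000000000000000) := by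
  rw [FF, aq7, aq6, aq5, aq4, aq3, aq2, aq1, aq0]
  norm_num

theorem bq7 : q7 (752025549301 / 1000000000000) = (-6752025549301 / 2000000000000) := by
  rw [q7]
  norm_num

theorem bq6 : q6 (752025549301 / 1000000000000) = (213674889266255704528879793 / 56000000000000000000000000) := by
  rw [q6, bq7]
  norm_num

theorem bq5 : q5 (752025549301 / 1000000000000) = (-163185889516979477784865662250975825307 / 112000000000000000000000000000000000000) := by
  rw [q5, bq7, bq6]
  norm_num

theorem bq4 : q4 (752025549301 / 1000000000000) = (2210992227800867573975616476807450267620556277151 / 1254400000000000000000000000000000000000000000000000) := by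
  rw [q4, bq7, bq6, bq5]
  norm_num

theorem bq3 : q3 (752025549301 / 1000000000000) = (228249981270161999680762808033627872735893073737644156514751727 / 137984000000000000000000000000000000000000000000000000000000000000) := by
  rw [q3, bq7, bq6, bq5, bq4]
  norm_num

theorem bq2 : q2 (752025549301 / 1000000000000) = (5521894825642528580307341030349960823715063306377848688965005541343081249367 / 3863552000000000000000000000000000000000000000000000000000000000000000000000000) := by
  rw [q2, bq7, bq6, bq5, bq4, bq3]
  norm_num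

theorem bq1 : q1 (752025549301 / 1000000000000) = (8356835807849238146116179624936568524313205050439852409768918806258960860883429552709591 / 7727104000000000000000000000000000000000000000000000000000000000000000000000000000000000000) := by
  rw [q1, bq7, bq6, bq5, bq4, bq3, bq2]
  norm_num

theorem bq0 : q0 (752025549301 / 1000000000000) = (524768330796196893871406470353653936628614191865904573203071955777188163941332092391556624328250176081 / 865435648000000000000000000000000000000000000000000000000000000000000000000000000000000000000000000000000) := by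
  rw [q0, bq7, bq6, bq5, bq4, bq3, bq2, bq1]
  norm_num

theorem bFF : FF (752025549301 / 1000000000000) = (371905373117218954088012694209047417861865031601322609072688077621394026070341862119206304501714453839 / 49453465600000000000000000000000000000000000000000000000000000000000000000000000000000000000000000000000000000000000) := by
  rw [FF, bq7, bq6, bq5, bq4, bq3, bq2, bq1, bq0]
  norm_num

theorem root : ∃ t : ℝ, 7520255493 / 10 ^ 10 ≤ t ∧ t ≤ 752025549301 / 10 ^ 12 ∧ FF t = 0 := by
  have h1 : FF ((7520255493 / 10000000000)) ≤ 0 := by rw [aFF]; norm_num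
  have h2 : 0 ≤ FF ((752025549301 / 1000000000000)) := by rw [bFF]; norm_num
  obtain ⟨t, ht, h⟩ := intermediate_value_Icc (by norm_num : ((7520255493 / 10000000000) : ℝ) ≤ (752025549301 / 1000000000000)) cF.continuousOn ⟨h1, h2⟩
  refine ⟨t, ?_, ?_, h⟩
  · refine le_trans ?_ ht.1
    norm_num
  · refine ht.2.trans ?_
    norm_num

/-- the number x is in the interval with centre a and radius u -/
def Bd (x a u : ℝ) : Prop := a - u ≤ x ∧ x ≤ a + u

theorem pb {x y a b u v a' b' P E : ℝ} (hx : Bd x a u) (hy : Bd y b v) (ha : a ≤ a')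
    (ha2 : -a ≤ a') (hb : b ≤ b') (hb2 : -b ≤ b') (hu : 0 ≤ u) (_hv : 0 ≤ v)
    (h1 : a * b - P + (a' * v + b' * u + u * v) ≤ E)
    (h2 : P - a * b + (a' * v + b' * u + u * v) ≤ E) : Bd (x * y) P E := by
  have hx' : |x - a| ≤ u := abs_le.2 ⟨by linarith [hx.1], by linarith [hx.2]⟩
  have hy' : |y - b| ≤ v := abs_le.2 ⟨by linarith [hy.1], by linarith [hy.2]⟩
  have ha' : |a| ≤ a' := abs_le.2 ⟨by linarith, ha⟩
  have hb' : |b| ≤ b' := abs_le.2 ⟨by linarith, hb⟩
  have e1 : |a * (y - b)| ≤ a' * v := by
    rw [abs_mul]
    exact mul_le_mul ha' hy' (abs_nonneg _) ((abs_nonneg _).trans ha')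
  have e2 : |b * (x - a)| ≤ b' * u := by
    rw [abs_mul]
    exact mul_le_mul hb' hx' (abs_nonneg _) ((abs_nonneg _).trans hb')
  have e3 : |(x - a) * (y - b)| ≤ u * v := by
    rw [abs_mul]
    exact mul_le_mul hx' hy' (abs_nonneg _) hu
  have e4 : x * y = a * b + a * (y - b) + b * (x - a) + (x - a) * (y - b) := by ring
  have f1 := abs_le.1 e1
  have f2 := abs_le.1 e2
  have f3 := abs_le.1 e3
  constructor
  · rw [e4]
    linarith [f1.1, f2.1, f3.1]
  · rw [e4]
    linarith [f1.2, f2.2, f3.2]

theorem bds {t : ℝ} (ht1 : 7520255493 / 10 ^ 10 ≤ t) (ht2 : t ≤ 752025549301 / 10 ^ 12) :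
    Bd (q7 t) (-3.37601277465) 0.000000000000500001 ∧ Bd (q6 t) 3.815623022610718444 0.000000000004366584 ∧ Bd (q5 t) (-1.457016870686799508) 0.000000000022418692 ∧ Bd (q4 t) 0.001762589467320145 0.000000000099325543 ∧ Bd (q3 t) 0.001654177160185305 0.000000000430637744 ∧
      Bd (-(2 * (q0 t * q6 t) + 2 * (q1 t * q5 t) + 2 * (q2 t * q4 t) + q3 t * q3 t)) (-0.001483564127764665) 0.000000291092491415 ∧
      Bd (-(2 * (q0 t * q5 t) + 2 * (q1 t * q4 t) + 2 * (q2 t * q3 t))) 0.001758421971058082 0.000000102187972791 ∧
      Bd (-(2 * (q0 t * q4 t) + 2 * (q1 t * q3 t) + q2 t * q2 t)) (-0.00000775820364344) 0.000000000156721425 ∧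
      Bd (-(2 * (q0 t * q3 t) + 2 * (q1 t * q2 t))) (-0.000005097473385374) 0.000000000143654103 := by
  have ht : Bd t 0.7520255493 0.000000000001 := by
    constructor
    · refine le_trans ?_ ht1
      norm_num
    · refine ht2.trans ?_
      norm_num
  have h7 : Bd (q7 t) (-3.37601277465) 0.000000000000500001 := by
    unfold q7
    constructor <;> linarith [ht.1, ht.2]
  have p77 : Bd (q7 t * q7 t) 11.397462254599991683 0.000000000003376021 := pb h7 h7 (a' := 3.37601277465) (b' := 3.37601277465) (by norm_num) (by norm_num)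
    (by norm_num) (by norm_num) (by norm_num) (by norm_num) (by norm_num) (by norm_num)
  have h6 : Bd (q6 t) 3.815623022610718444 0.000000000004366584 := by
    unfold q6
    constructor <;> linarith [ht.1, ht.2, p77.1, p77.2]
  have p76 : Bd (q7 t * q6 t) (-12.881592067582431261) 0.00000000001664946 := pb h7 h6 (a' := 3.37601277465) (b' := 3.815623022610718444) (by norm_num) (by norm_num)
    (by norm_num) (by norm_num) (by norm_num) (by norm_num) (by norm_num) (by norm_num)
  have h5 : Bd (q5 t) (-1.457016870686799508) 0.000000000022418692 := by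
    unfold q5
    constructor <;> linarith [ht.1, ht.2, p76.1, p76.2]
  have p75 : Bd (q7 t * q5 t) 4.918907568319202258 0.000000000076414302 := pb h7 h5 (a' := 3.37601277465) (b' := 1.457016870686799508) (by norm_num) (by norm_num)
    (by norm_num) (by norm_num) (by norm_num) (by norm_num) (by norm_num) (by norm_num)
  have p66 : Bd (q6 t * q6 t) 14.558979050676955194 0.000000000033322479 := pb h6 h6 (a' := 3.815623022610718444) (b' := 3.815623022610718444) (by norm_num) (by norm_num)
    (by norm_num) (by norm_num) (by norm_num) (by norm_num) (by norm_num) (by norm_num)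
  have h4 : Bd (q4 t) 0.001762589467320145 0.000000000099325543 := by
    unfold q4
    constructor <;> linarith [ht.1, ht.2, p75.1, p75.2, p66.1, p66.2]
  have p74 : Bd (q7 t * q4 t) (-0.005950524558136348) 0.000000000335325185 := pb h7 h4 (a' := 3.37601277465) (b' := 0.001762589467320145) (by norm_num) (by norm_num)
    (by norm_num) (by norm_num) (by norm_num) (by norm_num) (by norm_num) (by norm_num)
  have p65 : Bd (q6 t * q5 t) (-5.55942711612477623) 0.000000000091903466 := pb h6 h5 (a' := 3.815623022610718444) (b' := 1.457016870686799508) (by norm_num) (by norm_num)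
    (by norm_num) (by norm_num) (by norm_num) (by norm_num) (by norm_num) (by norm_num)
  have h3 : Bd (q3 t) 0.001654177160185305 0.000000000430637744 := by
    unfold q3
    constructor <;> linarith [ht.1, ht.2, p74.1, p74.2, p65.1, p65.2]
  have p73 : Bd (q7 t * q3 t) (-0.005584523224319849) 0.000000001453839354 := pb h7 h3 (a' := 3.37601277465) (b' := 0.001654177160185305) (by norm_num) (by norm_num)
    (by norm_num) (by norm_num) (by norm_num) (by norm_num) (by norm_num) (by norm_num)
  have p64 : Bd (q6 t * q4 t) 0.006725376950917908 0.000000000378996527 := pb h6 h4 (a' := 3.815623022610718444) (b' := 0.001762589467320145) (by norm_num) (by norm_num)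
    (by norm_num) (by norm_num) (by norm_num) (by norm_num) (by norm_num) (by norm_num)
  have p55 : Bd (q5 t * q5 t) 2.122898161465953839 0.000000000065328827 := pb h5 h5 (a' := 1.457016870686799508) (b' := 1.457016870686799508) (by norm_num) (by norm_num)
    (by norm_num) (by norm_num) (by norm_num) (by norm_num) (by norm_num) (by norm_num)
  have h2 : Bd (q2 t) 0.001429227515425022 0.000000001866250296 := by
    unfold q2
    constructor <;> linarith [ht.1, ht.2, p73.1, p73.2, p64.1, p64.2, p55.1, p55.2]
  have p72 : Bd (q7 t * q2 t) (-0.004825090349956154) 0.000000006300485556 := pb h7 h2 (a' := 3.37601277465) (b' := 0.001429227515425022) (by norm_num) (by norm_num)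
    (by norm_num) (by norm_num) (by norm_num) (by norm_num) (by norm_num) (by norm_num)
  have p63 : Bd (q6 t * q3 t) 0.006311716455879868 0.000000001643158515 := pb h6 h3 (a' := 3.815623022610718444) (b' := 0.001654177160185305) (by norm_num) (by norm_num)
    (by norm_num) (by norm_num) (by norm_num) (by norm_num) (by norm_num) (by norm_num)
  have p54 : Bd (q5 t * q4 t) (-0.002568122589980311) 0.000000000144758509 := pb h5 h4 (a' := 1.457016870686799508) (b' := 0.001762589467320145) (by norm_num) (by norm_num)
    (by norm_num) (by norm_num) (by norm_num) (by norm_num) (by norm_num) (by norm_num)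
  have h1 : Bd (q1 t) 0.001081496484056597 0.000000008088402581 := by
    unfold q1
    constructor <;> linarith [p72.1, p72.2, p63.1, p63.2, p54.1, p54.2]
  have p71 : Bd (q7 t * q1 t) (-0.003651145945914132) 0.000000027306550983 := pb h7 h1 (a' := 3.37601277465) (b' := 0.001081496484056597) (by norm_num) (by norm_num)
    (by norm_num) (by norm_num) (by norm_num) (by norm_num) (by norm_num) (by norm_num)
  have p62 : Bd (q6 t * q2 t) 0.00545339341240443 0.000000007120913838 := pb h6 h2 (a' := 3.815623022610718444) (b' := 0.001429227515425022) (by norm_num) (by norm_num)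
    (by norm_num) (by norm_num) (by norm_num) (by norm_num) (by norm_num) (by norm_num)
  have p53 : Bd (q5 t * q3 t) (-0.00241016402949477) 0.000000000627483544 := pb h5 h3 (a' := 1.457016870686799508) (b' := 0.001654177160185305) (by norm_num) (by norm_num)
    (by norm_num) (by norm_num) (by norm_num) (by norm_num) (by norm_num) (by norm_num)
  have p44 : Bd (q4 t * q4 t) 0.000003106721630308 0.000000000000350142 := pb h4 h4 (a' := 0.001762589467320145) (b' := 0.001762589467320145) (by norm_num) (by norm_num)
    (by norm_num) (by norm_num) (by norm_num) (by norm_num) (by norm_num) (by norm_num)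
  have h0 : Bd (q0 t) 0.000606363202189318 0.000000035055123437 := by
    unfold q0
    constructor <;> linarith [p71.1, p71.2, p62.1, p62.2, p53.1, p53.2, p44.1, p44.2]
  have p06 : Bd (q0 t * q6 t) 0.00231365339433752 0.000000133757138696 := pb h0 h6 (a' := 0.000606363202189318) (b' := 3.815623022610718444) (by norm_num) (by norm_num)
    (by norm_num) (by norm_num) (by norm_num) (by norm_num) (by norm_num) (by norm_num)
  have p15 : Bd (q1 t * q5 t) (-0.001575758622858919) 0.000000011784963265 := pb h1 h5 (a' := 0.001081496484056597) (b' := 1.457016870686799508) (by norm_num) (by norm_num)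
    (by norm_num) (by norm_num) (by norm_num) (by norm_num) (by norm_num) (by norm_num)
  have p24 : Bd (q2 t * q4 t) 0.000002519141365092 0.000000000003431394 := pb h2 h4 (a' := 0.001429227515425022) (b' := 0.001762589467320145) (by norm_num) (by norm_num)
    (by norm_num) (by norm_num) (by norm_num) (by norm_num) (by norm_num) (by norm_num)
  have p33 : Bd (q3 t * q3 t) 0.000002736302077279 0.000000000001424704 := pb h3 h3 (a' := 0.001654177160185305) (b' := 0.001654177160185305) (by norm_num) (by norm_num)
    (by norm_num) (by norm_num) (by norm_num) (by norm_num) (by norm_num) (by norm_num)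
  have hR6 : Bd (-(2 * (q0 t * q6 t) + 2 * (q1 t * q5 t) + 2 * (q2 t * q4 t) + q3 t * q3 t)) (-0.001483564127764665) 0.000000291092491415 := by
    constructor <;> linarith [p06.1, p06.2, p15.1, p15.2, p24.1, p24.2, p33.1, p33.2]
  have p05 : Bd (q0 t * q5 t) (-0.000883481415353507) 0.000000051075919848 := pb h0 h5 (a' := 0.000606363202189318) (b' := 1.457016870686799508) (by norm_num) (by norm_num)
    (by norm_num) (by norm_num) (by norm_num) (by norm_num) (by norm_num) (by norm_num)
  have p14 : Bd (q1 t * q4 t) 0.000001906234311742 0.000000000014363956 := pb h1 h4 (a' := 0.001081496484056597) (b' := 0.001762589467320145) (by norm_num) (by norm_num)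
    (by norm_num) (by norm_num) (by norm_num) (by norm_num) (by norm_num) (by norm_num)
  have p23 : Bd (q2 t * q3 t) 0.000002364195512724 0.000000000003702591 := pb h2 h3 (a' := 0.001429227515425022) (b' := 0.001654177160185305) (by norm_num) (by norm_num)
    (by norm_num) (by norm_num) (by norm_num) (by norm_num) (by norm_num) (by norm_num)
  have hR5 : Bd (-(2 * (q0 t * q5 t) + 2 * (q1 t * q4 t) + 2 * (q2 t * q3 t))) 0.001758421971058082 0.000000102187972791 := by
    constructor <;> linarith [p05.1, p05.2, p14.1, p14.2, p23.1, p23.2]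
  have p04 : Bd (q0 t * q4 t) 0.000001068769393549 0.000000000061848024 := pb h0 h4 (a' := 0.000606363202189318) (b' := 0.001762589467320145) (by norm_num) (by norm_num)
    (by norm_num) (by norm_num) (by norm_num) (by norm_num) (by norm_num) (by norm_num)
  have p13 : Bd (q1 t * q3 t) 0.000001788986782747 0.000000000013845389 := pb h1 h3 (a' := 0.001081496484056597) (b' := 0.001654177160185305) (by norm_num) (by norm_num)
    (by norm_num) (by norm_num) (by norm_num) (by norm_num) (by norm_num) (by norm_num)
  have p22 : Bd (q2 t * q2 t) 0.000002042691290848 0.000000000005334598 := pb h2 h2 (a' := 0.001429227515425022) (b' := 0.001429227515425022) (by norm_num) (by norm_num)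
    (by norm_num) (by norm_num) (by norm_num) (by norm_num) (by norm_num) (by norm_num)
  have hR4 : Bd (-(2 * (q0 t * q4 t) + 2 * (q1 t * q3 t) + q2 t * q2 t)) (-0.00000775820364344) 0.000000000156721425 := by
    constructor <;> linarith [p04.1, p04.2, p13.1, p13.2, p22.1, p22.2]
  have p03 : Bd (q0 t * q3 t) 0.000001003032159838 0.000000000058248524 := pb h0 h3 (a' := 0.000606363202189318) (b' := 0.001654177160185305) (by norm_num) (by norm_num)
    (by norm_num) (by norm_num) (by norm_num) (by norm_num) (by norm_num) (by norm_num)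
  have p12 : Bd (q1 t * q2 t) 0.000001545704532849 0.000000000013578527 := pb h1 h2 (a' := 0.001081496484056597) (b' := 0.001429227515425022) (by norm_num) (by norm_num)
    (by norm_num) (by norm_num) (by norm_num) (by norm_num) (by norm_num) (by norm_num)
  have hR3 : Bd (-(2 * (q0 t * q3 t) + 2 * (q1 t * q2 t))) (-0.000005097473385374) 0.000000000143654103 := by
    constructor <;> linarith [p03.1, p03.2, p12.1, p12.2]
  exact ⟨h7, h6, h5, h4, h3, hR6, hR5, hR4, hR3⟩

theorem signs {q3 q4 q5 q6 q7 r α R3 R4 R5 R6 : ℝ} (hr : r = q7 / 2) (hα : α = q6 - r * r)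
    (h7 : Bd q7 (-3.37601277465) 0.000000000000500001)
    (h6 : Bd q6 3.815623022610718444 0.000000000004366584)
    (h5 : Bd q5 (-1.457016870686799508) 0.000000000022418692)
    (h4 : Bd q4 0.001762589467320145 0.000000000099325543)
    (h3 : Bd q3 0.001654177160185305 0.000000000430637744)
    (hR6 : Bd R6 (-0.001483564127764665) 0.000000291092491415)
    (hR5 : Bd R5 0.001758421971058082 0.000000102187972791)
    (hR4 : Bd R4 (-0.00000775820364344) 0.000000000156721425)
    (hR3 : Bd R3 (-0.000005097473385374) 0.000000000143654103) :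
    R6 * (r * R6 - R5) / 2 + r * R6 * R6 / 4 < 0 ∧
      0 < q3 - (α - R6) * (q5 - r * α + (r * R6 - R5)) / 2 +
        r * (R4 - q4 + (α - R6) * (α - R6) / 4 + r * (q5 - r * α + (r * R6 - R5))) - R3 := by
  have kr : Bd (r) (-1.688006387325) 0.000000000000250002 := by
    rw [hr]
    constructor <;> linarith [h7.1, h7.2]
  have krr : Bd (r * r) 2.849365563649997921 0.000000000000844012 := pb kr kr (a' := 1.688006387325) (b' := 1.688006387325) (by norm_num) (by norm_num)
    (by norm_num) (by norm_num) (by norm_num) (by norm_num) (by norm_num) (by norm_num)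
  have ka : Bd (α) 0.966257458960720523 0.000000000005210597 := by
    rw [hα]
    constructor <;> linarith [h6.1, h6.2, krr.1, krr.2]
  have kra : Bd (r * α) (-1.631048762526120299) 0.000000000009037089 := pb kr ka (a' := 1.688006387325) (b' := 0.966257458960720523) (by norm_num) (by norm_num)
    (by norm_num) (by norm_num) (by norm_num) (by norm_num) (by norm_num) (by norm_num)
  have kb1 : Bd (q5 - r * α) 0.174031891839320791 0.000000000031455782 := by
    constructor <;> linarith [h5.1, h5.2, kra.1, kra.2]
  have krR : Bd (r * R6) 0.002504265723672997 0.000000491365985183 := pb kr hR6 (a' := 1.688006387325) (b' := 0.001483564127764665) (by norm_num) (by norm_num)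
    (by norm_num) (by norm_num) (by norm_num) (by norm_num) (by norm_num) (by norm_num)
  have kb0 : Bd (r * R6 - R5) 0.000745843752614915 0.000000593553957975 := by
    constructor <;> linarith [krR.1, krR.2, hR5.1, hR5.2]
  have kRb : Bd (R6 * (r * R6 - R5)) (-0.000001106507036297) 0.000000001097857657 := pb hR6 kb0 (a' := 0.001483564127764665) (b' := 0.000745843752614915) (by norm_num) (by norm_num)
    (by norm_num) (by norm_num) (by norm_num) (by norm_num) (by norm_num) (by norm_num)
  have krRR : Bd ((r * R6) * R6) (-0.000003715238794032) 0.000000001458088932 := pb krR hR6 (a' := 0.002504265723672997) (b' := 0.001483564127764665) (by norm_num) (by norm_num)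
    (by norm_num) (by norm_num) (by norm_num) (by norm_num) (by norm_num) (by norm_num)
  have ks : Bd (α - R6) 0.967741023088485188 0.000000291097702013 := by
    constructor <;> linarith [ka.1, ka.2, hR6.1, hR6.2]
  have kc : Bd (q5 - r * α + (r * R6 - R5)) 0.174777735591935706 0.000000593585413758 := by
    constructor <;> linarith [kb1.1, kb1.2, kb0.1, kb0.2]
  have ksc : Bd ((α - R6) * (q5 - r * α + (r * R6 - R5))) 0.169139584654828611 0.000000625314525588 := pb ks kc (a' := 0.967741023088485188) (b' := 0.174777735591935706) (by norm_num) (by norm_num)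
    (by norm_num) (by norm_num) (by norm_num) (by norm_num) (by norm_num) (by norm_num)
  have kss : Bd ((α - R6) * (α - R6)) 0.936522687768348022 0.000000563414460669 := pb ks ks (a' := 0.967741023088485188) (b' := 0.967741023088485188) (by norm_num) (by norm_num)
    (by norm_num) (by norm_num) (by norm_num) (by norm_num) (by norm_num) (by norm_num)
  have krc : Bd (r * (q5 - r * α + (r * R6 - R5))) (-0.295025934041387461) 0.000001001976013543 := pb kr kc (a' := 1.688006387325) (b' := 0.174777735591935706) (by norm_num) (by norm_num)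
    (by norm_num) (by norm_num) (by norm_num) (by norm_num) (by norm_num) (by norm_num)
  have ki : Bd (R4 - q4 + (α - R6) * (α - R6) / 4 + r * (q5 - r * α + (r * R6 - R5))) (-0.06266560977026404) 0.00000114308567568 := by
    constructor <;> linarith [hR4.1, hR4.2, h4.1, h4.2, kss.1, kss.2, krc.1, krc.2]
  have kri : Bd (r * (R4 - q4 + (α - R6) * (α - R6) / 4 + r * (q5 - r * α + (r * R6 - R5)))) 0.105779949557821625 0.000001929535937476 := pb kr ki (a' := 1.688006387325) (b' := 0.06266560977026404) (by norm_num) (by norm_num)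
    (by norm_num) (by norm_num) (by norm_num) (by norm_num) (by norm_num) (by norm_num)
  constructor
  · linarith [kRb.2, krRR.2]
  · linarith [h3.1, ksc.2, kri.1, hR3.2]

theorem wroot {q3 q4 q5 r α R3 R4 R5 R6 : ℝ}
    (h0 : R6 * (r * R6 - R5) / 2 + r * R6 * R6 / 4 < 0)
    (h1 : 0 < q3 - (α - R6) * (q5 - r * α + (r * R6 - R5)) / 2 +
        r * (R4 - q4 + (α - R6) * (α - R6) / 4 + r * (q5 - r * α + (r * R6 - R5))) - R3) :
    ∃ w : ℝ, 0 < w ∧ w ^ 2 * q3 - (w * α - R6) * (w * q5 - r * (w * α - R6) - R5) / 2 +
      r * (R4 * w - w ^ 2 * q4 + (w * α - R6) ^ 2 / 4 +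
        r * w * (w * q5 - r * (w * α - R6) - R5)) - R3 * w = 0 := by
  obtain ⟨f, hf⟩ : ∃ f : ℝ → ℝ, f = fun w => w ^ 2 * q3 -
      (w * α - R6) * (w * q5 - r * (w * α - R6) - R5) / 2 +
      r * (R4 * w - w ^ 2 * q4 + (w * α - R6) ^ 2 / 4 +
        r * w * (w * q5 - r * (w * α - R6) - R5)) - R3 * w := ⟨_, rfl⟩
  have hc : Continuous f := by
    rw [hf]
    fun_prop
  have f0 : f 0 < 0 := by
    have e : f 0 = R6 * (r * R6 - R5) / 2 + r * R6 * R6 / 4 := by
      rw [hf]
      ring
    rw [e]
    exact h0
  have f1 : 0 < f 1 := by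
    have e : f 1 = q3 - (α - R6) * (q5 - r * α + (r * R6 - R5)) / 2 +
        r * (R4 - q4 + (α - R6) * (α - R6) / 4 + r * (q5 - r * α + (r * R6 - R5))) - R3 := by
      rw [hf]
      ring
    rw [e]
    exact h1
  obtain ⟨w, hw, h⟩ := intermediate_value_Icc (by norm_num : (0 : ℝ) ≤ 1) hc.continuousOn
    ⟨f0.le, f1.le⟩
  refine ⟨w, lt_of_le_of_ne hw.1 fun h2 => ?_, ?_⟩
  · rw [← h2] at h
    exact absurd h f0.ne
  · rw [hf] at h
    exact h

end Pool.Agent.H256.SG.FBaux

namespace Pool.Agent.H256.SG

open FBaux in
theorem fourB : SysStm := by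
  obtain ⟨t, ht1, ht2, hF⟩ := root
  obtain ⟨h7, h6, h5, h4, h3, k6, k5, k4, k3⟩ := bds ht1 ht2
  obtain ⟨r, hr⟩ : ∃ r : ℝ, r = q7 t / 2 := ⟨_, rfl⟩
  obtain ⟨α, hα⟩ : ∃ α : ℝ, α = q6 t - r * r := ⟨_, rfl⟩
  obtain ⟨R6, hR6⟩ : ∃ R : ℝ, R = -(2 * (q0 t * q6 t) + 2 * (q1 t * q5 t) + 2 * (q2 t * q4 t) +
    q3 t * q3 t) := ⟨_, rfl⟩
  obtain ⟨R5, hR5⟩ : ∃ R : ℝ, R = -(2 * (q0 t * q5 t) + 2 * (q1 t * q4 t) +
    2 * (q2 t * q3 t)) := ⟨_, rfl⟩
  obtain ⟨R4, hR4⟩ : ∃ R : ℝ, R = -(2 * (q0 t * q4 t) + 2 * (q1 t * q3 t) + q2 t * q2 t) :=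
    ⟨_, rfl⟩
  obtain ⟨R3, hR3⟩ : ∃ R : ℝ, R = -(2 * (q0 t * q3 t) + 2 * (q1 t * q2 t)) := ⟨_, rfl⟩
  rw [← hR6] at k6
  rw [← hR5] at k5
  rw [← hR4] at k4
  rw [← hR3] at k3
  obtain ⟨s0, s1⟩ := signs hr hα h7 h6 h5 h4 h3 k6 k5 k4 k3
  obtain ⟨w, hw, hq⟩ := wroot s0 s1
  exact ⟨t, q0 t, q1 t, q2 t, q3 t, q4 t, q5 t, q6 t, q7 t, w, r, α,
    w * q5 t - r * (w * α - R6) - R5, R3, R4, R5, R6,
    { e7 := by unfold q7; ring
      e6 := by unfold q6; ring
      e5 := by unfold q5; ring
      e4 := by unfold q4; ring
      e3 := by unfold q3; ring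
      e2 := by unfold q2; ring
      e1 := by unfold q1; ring
      e0 := by unfold q0; ring
      r7 := hF
      hr := hr
      hα := by rw [hα]; ring
      h6 := by rw [hR6]; ring
      h5 := by rw [hR5]; ring
      h4 := by rw [hR4]; ring
      h3 := by rw [hR3]; ring
      hβ := rfl
      quad := hq
      hτ := lt_of_lt_of_le (by norm_num) ht1
      hw := hw }⟩

end Pool.Agent.H256.SG
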