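import Pool.Agent.H256.SG.Stm

/-!
# SG-GEN: iteration of a map of local order `q`
-/

set_option autoImplicit false

open Polynomial

noncomputable section

namespace Pool.Agent.H256.SG

namespace Gen

theorem one_mem {δ : ℝ} (h1 : δ < 1) : (1 : ℝ) ∈ II δ := Or.inr ⟨h1.le, le_rfl⟩

theorem err_le {δ : ℝ} (h1 : δ < 1) (p : ℝ[X]) (B : ℝ)
    (h : ∀ x ∈ II δ, abs (p.eval x - x / abs x) ≤ B) : err δ p ≤ B := by
  refine csSup_le ⟨_, Set.mem_image_of_mem _ (one_mem h1)⟩ ?_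
  rintro y ⟨x, hx, rfl⟩
  exact h x hx

theorem II_sub {δ : ℝ} (h0 : 0 < δ) : II δ ⊆ Set.Icc (-1) 1 := by
  rintro x (hx | hx)
  · exact ⟨hx.1, by linarith [hx.2]⟩
  · exact ⟨by linarith [hx.1], hx.2⟩

theorem II_ne {δ : ℝ} (h0 : 0 < δ) {x : ℝ} (hx : x ∈ II δ) :
    (x / |x| = 1 ∧ δ ≤ x ∧ x ≤ 1) ∨ (x / |x| = -1 ∧ x ≤ -δ ∧ -1 ≤ x) := by
  rcases hx with hx | hx
  · right
    have hn : x < 0 := by linarith [hx.2]
    refine ⟨?_, hx.2, hx.1⟩
    rw [abs_of_neg hn, div_neg, div_self hn.ne]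
  · left
    have hn : 0 < x := by linarith [hx.1]
    refine ⟨?_, hx.1, hx.2⟩
    rw [abs_of_pos hn, div_self hn.ne']

theorem bdd {δ : ℝ} (h0 : 0 < δ) (p : ℝ[X]) :
    BddAbove ((fun x : ℝ => abs (p.eval x - x / abs x)) '' II δ) := by
  obtain ⟨M, hM⟩ := (isCompact_Icc (a := (-1 : ℝ)) (b := 1)).exists_bound_of_continuousOn
    (f := fun x => p.eval x) p.continuous.continuousOn
  refine ⟨M + 1, ?_⟩
  rintro y ⟨x, hx, rfl⟩
  have h1 := hM x (II_sub h0 hx)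
  rw [Real.norm_eq_abs] at h1
  have h2 : abs (x / abs x) ≤ 1 := by
    rcases II_ne h0 hx with h | h <;> rw [h.1] <;> simp
  simp only
  calc abs (p.eval x - x / abs x) ≤ |p.eval x| + abs (x / abs x) := abs_sub _ _
    _ ≤ M + 1 := add_le_add h1 h2

theorem le_err {δ : ℝ} (h0 : 0 < δ) (p : ℝ[X]) {x : ℝ} (hx : x ∈ II δ) :
    abs (p.eval x - x / abs x) ≤ err δ p :=
  le_csSup (bdd h0 p) ⟨x, hx, rfl⟩

theorem err_nonneg {δ : ℝ} (h0 : 0 < δ) (h1 : δ < 1) (p : ℝ[X]) : 0 ≤ err δ p :=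
  (abs_nonneg _).trans (le_err h0 p (one_mem h1))

theorem local_bound (q : ℕ) (G : ℝ[X]) (s : ℝ) (hs : s = 1 ∨ s = -1)
    (hG : (X - C s) ^ q ∣ G - C s) : ∃ K : ℝ, 1 ≤ K ∧ ∀ x : ℝ, |x - s| ≤ 1 →
      |G.eval x - s| ≤ K * |x - s| ^ q := by
  obtain ⟨U, hU⟩ := hG
  obtain ⟨M, hM⟩ := (isCompact_Icc (a := (-2 : ℝ)) (b := 2)).exists_bound_of_continuousOn
    (f := fun x => U.eval x) U.continuous.continuousOn
  refine ⟨max M 1, le_max_right _ _, fun x hx => ?_⟩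
  have h1 : G.eval x - s = (x - s) ^ q * U.eval x := by
    have := congrArg (Polynomial.eval x) hU
    simpa using this
  have hx2 : x ∈ Set.Icc (-2 : ℝ) 2 := by
    rw [abs_le] at hx
    rcases hs with rfl | rfl
    · exact ⟨by linarith [hx.1], by linarith [hx.2]⟩
    · exact ⟨by linarith [hx.1], by linarith [hx.2]⟩
  have h2 := hM x hx2
  rw [Real.norm_eq_abs] at h2
  rw [h1, abs_mul, abs_pow, mul_comm]
  exact mul_le_mul_of_nonneg_right (h2.trans (le_max_left _ _)) (by positivity)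

theorem err_comp {δ : ℝ} (h0 : 0 < δ) (h1 : δ < 1) (q : ℕ) (G P : ℝ[X]) (K : ℝ) (hK : 1 ≤ K)
    (hp : ∀ x : ℝ, |x - 1| ≤ 1 → |G.eval x - 1| ≤ K * |x - 1| ^ q)
    (hn : ∀ x : ℝ, |x - (-1)| ≤ 1 → |G.eval x - (-1)| ≤ K * |x - (-1)| ^ q)
    (hP : err δ P ≤ 1) : err δ (G.comp P) ≤ K * (err δ P) ^ q := by
  have hK0 : 0 ≤ K := by linarith
  refine err_le h1 _ _ fun x hx => ?_
  have hle := le_err h0 P hx
  rw [Polynomial.eval_comp]
  rcases II_ne h0 hx with h | h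
  · rw [h.1] at hle ⊢
    refine (hp _ (hle.trans hP)).trans ?_
    exact mul_le_mul_of_nonneg_left (pow_le_pow_left₀ (abs_nonneg _) hle q) hK0
  · rw [h.1] at hle ⊢
    refine (hn _ (hle.trans hP)).trans ?_
    exact mul_le_mul_of_nonneg_left (pow_le_pow_left₀ (abs_nonneg _) hle q) hK0

theorem err_X {δ : ℝ} (h0 : 0 < δ) (h1 : δ < 1) : err δ X ≤ 1 - δ := by
  refine err_le h1 _ _ fun x hx => ?_
  rw [Polynomial.eval_X]
  rcases II_ne h0 hx with h | h
  · rw [h.1, abs_le]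
    exact ⟨by linarith [h.2.1], by linarith [h.2.2]⟩
  · rw [h.1, abs_le]
    exact ⟨by linarith [h.2.2], by linarith [h.2.1]⟩

end Gen

open Gen in
theorem gen (hA : AlgStm) (hU : CompUpStm) : GenStm := by
  intro k q hk hq G hG hdp hdn δ h0 h1
  obtain ⟨-, -, hmono, hcomp, hpc⟩ := hA
  obtain ⟨K1, hK1, hp1⟩ := local_bound q G 1 (Or.inl rfl) (by simpa using hdp)
  obtain ⟨K2, hK2, hp2⟩ := local_bound q G (-1) (Or.inr rfl) (by simpa using hdn)
  set K : ℝ := max K1 K2 with hKdef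
  have hK : 1 ≤ K := hK1.trans (le_max_left _ _)
  have hK0 : 0 < K := by linarith
  have hp : ∀ x : ℝ, |x - 1| ≤ 1 → |G.eval x - 1| ≤ K * |x - 1| ^ q := fun x hx =>
    (hp1 x hx).trans (mul_le_mul_of_nonneg_right (le_max_left _ _) (by positivity))
  have hn : ∀ x : ℝ, |x - (-1)| ≤ 1 → |G.eval x - (-1)| ≤ K * |x - (-1)| ^ q := fun x hx =>
    (hp2 x hx).trans (mul_le_mul_of_nonneg_right (le_max_right _ _) (by positivity))
  -- the start
  obtain ⟨b, hb0, hb1, hb⟩ := hU δ h0 h1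
  obtain ⟨j0, hj0⟩ := exists_pow_lt_of_lt_one (show (0 : ℝ) < 1 / (2 * K) by positivity) hb1
  obtain ⟨P0, hP0, hP0e⟩ := hb j0
  have hP0' : K * err δ P0 ≤ 1 / 2 := by
    have h2 : b ^ (2 ^ j0) ≤ b ^ j0 := pow_le_pow_of_le_one hb0.le hb1.le Nat.lt_two_pow_self.le
    have h3 : err δ P0 ≤ 1 / (2 * K) := hP0e.trans (h2.trans hj0.le)
    calc K * err δ P0 ≤ K * (1 / (2 * K)) := mul_le_mul_of_nonneg_left h3 hK0.le
      _ = 1 / 2 := by field_simp
  have hseq : ∀ i : ℕ, ∃ P ∈ PiStar (2 * j0 + k * i), K * err δ P ≤ (1 / 2) ^ (q ^ i) := by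
    intro i
    induction i with
    | zero => exact ⟨P0, by simpa using hpc j0 hP0, by simpa using hP0'⟩
    | succ i ih =>
      obtain ⟨P, hPm, hPe⟩ := ih
      have he0 := err_nonneg h0 h1 P
      have hle1 : err δ P ≤ 1 := by
        have h4 : ((1 : ℝ) / 2) ^ (q ^ i) ≤ 1 := pow_le_one₀ (by norm_num) (by norm_num)
        nlinarith
      refine ⟨G.comp P, ?_, ?_⟩
      · have := hcomp _ _ P G hPm hG
        have h5 : 2 * j0 + k * (i + 1) = 2 * j0 + k * i + k := by ring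
        rw [h5]
        exact this
      · have h6 := err_comp h0 h1 q G P K hK hp hn hle1
        have h7 : K * (K * err δ P ^ q) ≤ (K * err δ P) ^ q := by
          rw [mul_pow, ← mul_assoc, ← pow_two]
          exact mul_le_mul_of_nonneg_right (pow_le_pow_right₀ hK hq) (by positivity)
        calc K * err δ (G.comp P) ≤ K * (K * err δ P ^ q) := mul_le_mul_of_nonneg_left h6 hK0.le
          _ ≤ (K * err δ P) ^ q := h7
          _ ≤ ((1 / 2) ^ (q ^ i)) ^ q := pow_le_pow_left₀ (by positivity) hPe q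
          _ = (1 / 2) ^ (q ^ (i + 1)) := by rw [← pow_mul, pow_succ]
  have hq1 : (1 : ℝ) < q := by exact_mod_cast (by omega : 1 < q)
  have hq0 : (0 : ℝ) < q := by linarith
  have hkr : (0 : ℝ) < k := by exact_mod_cast hk
  have hl2 : 0 < Real.log 2 := Real.log_pos (by norm_num)
  have hld : 0 < -Real.log (1 - δ) := by
    have := Real.log_neg (show 0 < 1 - δ by linarith) (by linarith)
    linarith
  set e : ℝ := 2 * (j0 : ℝ) / k with he
  have hqe : 0 < (q : ℝ) ^ (-e - 1) := Real.rpow_pos_of_pos hq0 _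
  have hqe' : 0 < (q : ℝ) ^ (-e) := Real.rpow_pos_of_pos hq0 _
  refine ⟨min (Real.log 2 * (q : ℝ) ^ (-e - 1)) (-Real.log (1 - δ) * (q : ℝ) ^ (-e)),
    lt_min (mul_pos hl2 hqe) (mul_pos hld hqe'), fun m => ?_⟩
  have hqm : 0 < (q : ℝ) ^ ((m : ℝ) / k) := Real.rpow_pos_of_pos hq0 _
  by_cases hm : 2 * j0 ≤ m
  · obtain ⟨P, hPm, hPe⟩ := hseq ((m - 2 * j0) / k)
    set i := (m - 2 * j0) / k with hi
    have hki : k * i ≤ m - 2 * j0 := Nat.mul_div_le _ _
    refine ⟨P, hmono (2 * j0 + k * i) m (by omega) hPm, ?_⟩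
    have he0 := err_nonneg h0 h1 P
    have h8 : err δ P ≤ (1 / 2) ^ (q ^ i) := by nlinarith
    refine h8.trans ?_
    have h9 : ((1 : ℝ) / 2) ^ (q ^ i) = Real.exp (-(Real.log 2 * (q : ℝ) ^ i)) := by
      rw [show -(Real.log 2 * (q : ℝ) ^ i) = ((q ^ i : ℕ) : ℝ) * (-Real.log 2) by push_cast; ring,
        Real.exp_nat_mul, Real.exp_neg, Real.exp_log (by norm_num), one_div]
    rw [h9]
    apply Real.exp_le_exp.2
    apply neg_le_neg
    have h10 : (m : ℝ) / k - e - 1 ≤ i := by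
      have h11 : m - 2 * j0 < k * (i + 1) := by
        rw [hi]
        exact Nat.lt_mul_div_succ _ (by omega)
      have h12 : (m : ℝ) - 2 * j0 < k * (i + 1) := by
        have : m < k * (i + 1) + 2 * j0 := by omega
        have h13 : (m : ℝ) < k * (i + 1) + 2 * j0 := by exact_mod_cast this
        linarith
      rw [he, ← sub_div, sub_le_iff_le_add, div_le_iff₀ hkr]
      nlinarith
    calc min (Real.log 2 * (q : ℝ) ^ (-e - 1)) (-Real.log (1 - δ) * (q : ℝ) ^ (-e))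
          * (q : ℝ) ^ ((m : ℝ) / k)
        ≤ (Real.log 2 * (q : ℝ) ^ (-e - 1)) * (q : ℝ) ^ ((m : ℝ) / k) :=
          mul_le_mul_of_nonneg_right (min_le_left _ _) hqm.le
      _ = Real.log 2 * (q : ℝ) ^ ((m : ℝ) / k - e - 1) := by
          rw [mul_assoc, ← Real.rpow_add hq0]
          congr 2
          ring
      _ ≤ Real.log 2 * (q : ℝ) ^ (i : ℝ) :=
          mul_le_mul_of_nonneg_left (Real.rpow_le_rpow_of_exponent_le hq1.le h10) hl2.le
      _ = Real.log 2 * (q : ℝ) ^ i := by rw [Real.rpow_natCast]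
  · push Not at hm
    have hX : (X : ℝ[X]) ∈ PiStar m := by
      have h2 : (X : ℝ[X]) ∈ PiComp 0 := Set.mem_singleton _
      exact hmono _ _ (Nat.zero_le m) (hpc 0 h2)
    refine ⟨X, hX, (err_X h0 h1).trans ?_⟩
    rw [← Real.exp_log (show 0 < 1 - δ by linarith)]
    apply Real.exp_le_exp.2
    rw [Real.log_exp]
    have h14 : (m : ℝ) / k ≤ e := by
      rw [he]
      have : (m : ℝ) ≤ 2 * j0 := by exact_mod_cast hm.le
      gcongr
    have h15 : min (Real.log 2 * (q : ℝ) ^ (-e - 1)) (-Real.log (1 - δ) * (q : ℝ) ^ (-e))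
          * (q : ℝ) ^ ((m : ℝ) / k) ≤ -Real.log (1 - δ) := by
      calc min (Real.log 2 * (q : ℝ) ^ (-e - 1)) (-Real.log (1 - δ) * (q : ℝ) ^ (-e))
          * (q : ℝ) ^ ((m : ℝ) / k)
          ≤ (-Real.log (1 - δ) * (q : ℝ) ^ (-e)) * (q : ℝ) ^ ((m : ℝ) / k) :=
            mul_le_mul_of_nonneg_right (min_le_right _ _) hqm.le
        _ ≤ (-Real.log (1 - δ) * (q : ℝ) ^ (-e)) * (q : ℝ) ^ e :=
            mul_le_mul_of_nonneg_left (Real.rpow_le_rpow_of_exponent_le hq1.le h14)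
              (mul_pos hld hqe').le
        _ = -Real.log (1 - δ) := by
            rw [mul_assoc, ← Real.rpow_add hq0, neg_add_cancel, Real.rpow_zero, mul_one]
    linarith

end Pool.Agent.H256.SG
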