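import Pool.Agent.H256.SG.Stm

/-!
# Assembly
-/

open Polynomial

noncomputable section

namespace Pool.Agent.H256.SG

lemma err_nonneg (δ : ℝ) (p : ℝ[X]) : 0 ≤ err δ p := by
  apply Real.sSup_nonneg
  rintro x ⟨y, -, rfl⟩
  exact abs_nonneg _

lemma bdd (δ : ℝ) (P : Set ℝ[X]) : BddBelow (err δ '' P) :=
  ⟨0, by rintro x ⟨p, -, rfl⟩; exact err_nonneg δ p⟩

lemma inf_le {δ : ℝ} {P : Set ℝ[X]} {p : ℝ[X]} {a : ℝ} (hp : p ∈ P) (h : err δ p ≤ a) :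
    sInf (err δ '' P) ≤ a :=
  (csInf_le (bdd δ P) ⟨p, hp, rfl⟩).trans h

lemma le_inf {δ : ℝ} {P : Set ℝ[X]} {a : ℝ} (hP : P.Nonempty) (h : ∀ p ∈ P, a ≤ err δ p) :
    a ≤ sInf (err δ '' P) := by
  apply le_csInf (hP.image _)
  rintro x ⟨p, hp, rfl⟩
  exact h p hp

/-- the map of order 60 -/
lemma sixty (hA : AlgStm) (hF : FourStm) :
    ∃ G ∈ PiStar 8, (X - 1) ^ 60 ∣ G - 1 ∧ (X + 1) ^ 60 ∣ G + 1 := by
  obtain ⟨-, hA2, -, hA4, -⟩ := hA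
  obtain ⟨P, hP, ⟨U, hU⟩, ⟨W, hW⟩⟩ := hF
  have hX : (X : ℝ[X]) ∈ PiStar 0 := by
    refine ⟨fun j => if j = 0 then 1 else X, ⟨by simp, by simp, fun k h1 h2 => by omega⟩,
      fun j => if j = 1 then 1 else 0, ?_⟩
    simp [Finset.sum_range_succ]
  have hnX : (-X : ℝ[X]) ∈ PiStar 0 := by
    have := hA2 0 X (-1) 0 hX
    simpa using this
  have h1 : P.comp (-X) ∈ PiStar 4 := by simpa using hA4 0 4 (-X) P hnX hP
  have h2 : -(P.comp (-X)) ∈ PiStar 4 := by simpa using hA2 4 _ (-1) 0 h1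
  have e1 : P = 1 + (X - 1) ^ 10 * U := by rw [← hU]; ring
  have e2 : P = -1 + (X + 1) ^ 6 * W := by rw [← hW]; ring
  refine ⟨(-(P.comp (-X))).comp P, hA4 4 4 P _ hP h2, ?_, ?_⟩
  · have h3 : (-(P.comp (-X))).comp P - 1 = -((P - 1) ^ 6 * W.comp (-P)) := by
      have : P.comp (-X) = -1 + (1 - X) ^ 6 * W.comp (-X) := by
        conv_lhs => rw [e2]
        simp only [add_comp, mul_comp, pow_comp, neg_comp, one_comp, X_comp]
        ring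
      rw [neg_comp, this]
      simp only [add_comp, mul_comp, pow_comp, neg_comp, one_comp, X_comp, sub_comp, comp_assoc]
      ring
    rw [h3, hU]
    refine ⟨-(U ^ 6 * W.comp (-P)), by ring⟩
  · have h3 : (-(P.comp (-X))).comp P + 1 = -((P + 1) ^ 10 * U.comp (-P)) := by
      have : P.comp (-X) = 1 + (X + 1) ^ 10 * U.comp (-X) := by
        conv_lhs => rw [e1]
        simp only [add_comp, mul_comp, pow_comp, one_comp, X_comp, sub_comp]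
        ring
      rw [neg_comp, this]
      simp only [add_comp, mul_comp, pow_comp, neg_comp, one_comp, X_comp, sub_comp, comp_assoc]
      ring
    rw [h3, hW]
    refine ⟨-(W ^ 10 * U.comp (-P)), by ring⟩

/-- The main theorem. -/
def MainStm : Prop :=
  ∀ δ : ℝ, 0 < δ → δ < 1 →
    (∃ K : ℝ, ∀ m : ℕ, {T : ℕ | 1 ≤ T ∧ epsComp δ T ≤ epsStar δ m}.Nonempty ∧
      Real.logb 2 60 / 8 * m - K ≤ TT m δ ∧ (TT m δ : ℝ) ≤ m + K) ∧
    (∃ a b : ℝ, 0 < a ∧ 0 < b ∧ b < 1 ∧ ∀ T : ℕ,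
      a ^ (2 ^ T) ≤ epsComp δ T ∧ epsComp δ T ≤ b ^ (2 ^ T)) ∧
    (∃ a c : ℝ, 0 < a ∧ 0 < c ∧ ∀ m : ℕ, a ^ (2 ^ m) ≤ epsStar δ m ∧
      epsStar δ m ≤ Real.exp (-(c * 60 ^ ((m : ℝ) / 8))))

theorem main (hCL : CompLowStm) (hCU : CompUpStm) (hPL : PolyLowStm) (hA : AlgStm)
    (hG : GenStm) (hF : FourStm) : MainStm := by
  intro δ h0 h1
  obtain ⟨a, ha0, ha1, ha⟩ := hCL δ h0 h1
  obtain ⟨b, hb0, hb1, hb⟩ := hCU δ h0 h1
  obtain ⟨a', ha0', ha1', ha'⟩ := hPL δ h0 h1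
  obtain ⟨G, hG8, hG1, hG2⟩ := sixty hA hF
  obtain ⟨c, hc0, hc⟩ := hG 8 60 (by norm_num) (by norm_num) G hG8 hG1 hG2 δ h0 h1
  have cl : ∀ T : ℕ, a ^ (2 ^ T) ≤ epsComp δ T := fun T => by
    obtain ⟨p, hp, -⟩ := hb T
    exact le_inf ⟨p, hp⟩ (ha T)
  have cu : ∀ T : ℕ, epsComp δ T ≤ b ^ (2 ^ T) := fun T => by
    obtain ⟨p, hp, h⟩ := hb T
    exact inf_le hp h
  have sl : ∀ m : ℕ, (a' ^ 2) ^ (2 ^ m) ≤ epsStar δ m := fun m => by
    obtain ⟨p, hp, -⟩ := hc m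
    refine le_inf ⟨p, hp⟩ (fun q hq => le_trans ?_ (ha' (2 ^ m) q (hA.1 m q hq)))
    rw [← pow_mul]
    apply pow_le_pow_of_le_one ha0'.le ha1'.le
    have := Nat.one_le_two_pow (n := m)
    omega
  have su : ∀ m : ℕ, epsStar δ m ≤ Real.exp (-(c * 60 ^ ((m : ℝ) / 8))) := fun m => by
    obtain ⟨p, hp, h⟩ := hc m
    refine inf_le hp ?_
    simpa using h
  refine ⟨?_, ⟨a, b, ha0, hb0, hb1, fun T => ⟨cl T, cu T⟩⟩,
    ⟨a' ^ 2, c, by positivity, hc0, fun m => ⟨sl m, su m⟩⟩⟩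
  -- choose j
  obtain ⟨j, hj⟩ : ∃ j : ℕ, b ^ j ≤ a' ^ 2 :=
    (exists_pow_lt_of_lt_one (show (0 : ℝ) < a' ^ 2 by positivity) hb1).imp fun _ h => h.le
  have hmem : ∀ m : ℕ, m + j + 1 ∈ {T : ℕ | 1 ≤ T ∧ epsComp δ T ≤ epsStar δ m} := fun m => by
    refine ⟨by omega, (cu _).trans (le_trans ?_ (sl m))⟩
    calc b ^ 2 ^ (m + j + 1) ≤ b ^ (j * 2 ^ m) := by
          apply pow_le_pow_of_le_one hb0.le hb1.le
          have h2 : j ≤ 2 ^ j := Nat.lt_two_pow_self.le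
          calc j * 2 ^ m ≤ 2 ^ j * 2 ^ m := Nat.mul_le_mul_right _ h2
            _ = 2 ^ (m + j) := by rw [← pow_add, add_comm]
            _ ≤ 2 ^ (m + j + 1) := Nat.pow_le_pow_right (by norm_num) (by omega)
      _ = (b ^ j) ^ 2 ^ m := by rw [pow_mul]
      _ ≤ (a' ^ 2) ^ 2 ^ m := pow_le_pow_left₀ (by positivity) hj _
  have hla : Real.log a < 0 := Real.log_neg ha0 ha1
  set L : ℝ := Real.logb 2 (c / (-Real.log a)) with hL
  refine ⟨max (j + 1) (-L), fun m => ⟨⟨_, hmem m⟩, ?_, ?_⟩⟩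
  · have hT : TT m δ ∈ {T : ℕ | 1 ≤ T ∧ epsComp δ T ≤ epsStar δ m} := Nat.sInf_mem ⟨_, hmem m⟩
    set T := TT m δ with hTdef
    have h3 : a ^ (2 ^ T) ≤ Real.exp (-(c * 60 ^ ((m : ℝ) / 8))) :=
      (cl T).trans (hT.2.trans (su m))
    have h4 : (2 ^ T : ℕ) * Real.log a ≤ -(c * 60 ^ ((m : ℝ) / 8)) := by
      have := Real.log_le_log (by positivity) h3
      rwa [Real.log_exp, Real.log_pow] at this
    have h5 : c / (-Real.log a) * 60 ^ ((m : ℝ) / 8) ≤ (2 : ℝ) ^ (T : ℝ) := by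
      rw [Real.rpow_natCast, div_mul_eq_mul_div, div_le_iff₀ (by linarith)]
      push_cast at h4
      linarith
    have hcp : 0 < c / (-Real.log a) := div_pos hc0 (by linarith)
    have h60 : (0 : ℝ) < 60 ^ ((m : ℝ) / 8) := by positivity
    have h6 := Real.logb_le_logb_of_le (by norm_num : (1 : ℝ) < 2) (mul_pos hcp h60) h5
    rw [Real.logb_mul hcp.ne' h60.ne', Real.logb_rpow (by norm_num) (by norm_num),
      Real.logb_rpow_eq_mul_logb_of_pos (by norm_num)] at h6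
    have h7 : -L ≤ max (j + 1 : ℝ) (-L) := le_max_right _ _
    have h8 : (m : ℝ) / 8 * Real.logb 2 60 = Real.logb 2 60 / 8 * m := by ring
    rw [h8, ← hL] at h6
    linarith
  · have h3 : TT m δ ≤ m + j + 1 := Nat.sInf_le (hmem m)
    have h4 : (TT m δ : ℝ) ≤ (m + j + 1 : ℕ) := by exact_mod_cast h3
    push_cast at h4
    have h5 : (j + 1 : ℝ) ≤ max (j + 1 : ℝ) (-L) := le_max_left _ _
    linarith

end Pool.Agent.H256.SG
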