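import Pool.Agent.H256.SG.Stm

/-!
# Polynomials of degree `N` (SG-PL, helper308)
-/

open Polynomial

set_option autoImplicit false

noncomputable section

namespace Pool.Agent.H256.SG

namespace PLAux

theorem bdd (δ : ℝ) (h0 : 0 < δ) (p : ℝ[X]) :
    BddAbove ((fun x : ℝ => abs (p.eval x - x / abs x)) '' II δ) := by
  obtain ⟨B, hB⟩ := (isCompact_Icc (a := (-1 : ℝ)) (b := 1)).exists_bound_of_continuousOn
    p.continuous.continuousOn
  refine ⟨B + 1, ?_⟩
  rintro y ⟨x, hx, rfl⟩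
  have hx' : x ∈ Set.Icc (-1 : ℝ) 1 := by
    rcases hx with hx | hx
    · exact ⟨hx.1, by linarith [hx.2]⟩
    · exact ⟨by linarith [hx.1], hx.2⟩
  have h1 := hB x hx'
  rw [Real.norm_eq_abs] at h1
  have h2 : abs (x / abs x) ≤ 1 := by
    rw [abs_div, abs_abs]
    exact div_self_le_one _
  exact (abs_sub _ _).trans (add_le_add h1 h2)

theorem pt {δ : ℝ} (h0 : 0 < δ) (p : ℝ[X]) {x : ℝ} (hx : x ∈ II δ) :
    abs (p.eval x - x / abs x) ≤ err δ p := le_csSup (bdd δ h0 p) ⟨x, hx, rfl⟩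

theorem T_le {x : ℝ} (hx : 1 ≤ x) (n : ℕ) :
    (Chebyshev.T ℝ n).eval x ≤ (2 * x) ^ n ∧
      (Chebyshev.T ℝ ((n : ℤ) + 1)).eval x ≤ (2 * x) ^ (n + 1) := by
  induction n with
  | zero => simp; linarith
  | succ n ih =>
    refine ⟨by exact_mod_cast ih.2, ?_⟩
    have e : ((n + 1 : ℕ) : ℤ) + 1 = (n : ℤ) + 2 := by push_cast; ring
    rw [e, Chebyshev.T_add_two]
    have h1 := Chebyshev.one_le_eval_T_real (n : ℤ) hx
    simp only [eval_sub, eval_mul, eval_ofNat, eval_X]
    have h2 : 2 * x * (Chebyshev.T ℝ ((n : ℤ) + 1)).eval x ≤ 2 * x * (2 * x) ^ (n + 1) :=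
      mul_le_mul_of_nonneg_left ih.2 (by linarith)
    calc 2 * x * (Chebyshev.T ℝ ((n : ℤ) + 1)).eval x - (Chebyshev.T ℝ (n : ℤ)).eval x
        ≤ 2 * x * (2 * x) ^ (n + 1) := by linarith
      _ = (2 * x) ^ (n + 1 + 1) := by ring

end PLAux

open PLAux in
theorem polyLow : PolyLowStm := by
  intro δ h0 h1
  have h1' : 0 < 1 - δ := by linarith
  set x0 : ℝ := (1 + 3 * δ) / (1 - δ) with hx0d
  have hx0 : 1 ≤ x0 := by
    rw [hx0d, one_le_div h1']
    linarith
  set a : ℝ := 1 / (2 * x0) with ha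
  have ha0 : 0 < a := by positivity
  have ha2 : a ≤ 1 / 2 := by
    rw [ha]
    exact one_div_le_one_div_of_le (by norm_num) (by linarith)
  refine ⟨a, ha0, by linarith, ?_⟩
  intro N p hp
  by_contra hcon
  push Not at hcon
  set E : ℝ := a ^ (N + 1) with hE
  have hE0 : 0 < E := by positivity
  have hEa : E ≤ a := by
    rw [hE, pow_succ]
    have : a ^ N ≤ 1 := pow_le_one₀ ha0.le (by linarith)
    nlinarith
  have hpt : ∀ x ∈ II δ, abs (p.eval x - x / abs x) ≤ E := fun x hx => (pt h0 p hx).trans hcon.le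
  set L : ℝ[X] := C ((1 + δ) / 2) + C (-((1 - δ) / 2)) * X with hL
  set P : ℝ[X] := C (-1 / E) * (p - 1).comp L with hP
  have hLe : ∀ x : ℝ, L.eval x = (1 + δ) / 2 + -((1 - δ) / 2) * x := fun x => by
    rw [hL]; simp
  have hPe : ∀ x : ℝ, P.eval x = -1 / E * (p.eval (L.eval x) - 1) := fun x => by
    rw [hP]; simp [eval_comp]
  have hLd : L.natDegree ≤ 1 := by
    rw [hL]; compute_degree
  have hPd : P.degree ≤ N := by
    have h2 : P.natDegree ≤ N := by
      rw [hP]
      refine (natDegree_C_mul_le _ _).trans ((natDegree_comp_le).trans ?_)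
      have h3 : (p - 1).natDegree ≤ N := (natDegree_sub_le _ _).trans (by simpa using hp)
      calc (p - 1).natDegree * L.natDegree ≤ N * 1 := Nat.mul_le_mul h3 hLd
        _ = N := mul_one N
    exact natDegree_le_iff_degree_le.1 h2
  have hPb : ∀ x ∈ Set.Icc (-1 : ℝ) 1, |P.eval x| ≤ 1 := by
    intro x hx
    rw [hPe]
    set t : ℝ := L.eval x with ht
    rw [hLe] at ht
    have ht1 : δ ≤ t := by rw [ht]; nlinarith [hx.2]
    have ht2 : t ≤ 1 := by rw [ht]; nlinarith [hx.1]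
    have h2 := hpt t (Or.inr ⟨ht1, ht2⟩)
    have ht0 : 0 < t := by linarith
    rw [abs_of_pos ht0, div_self ht0.ne'] at h2
    rw [abs_mul, abs_div, abs_neg, abs_one, abs_of_pos hE0, one_div_mul_eq_div,
      div_le_one hE0]
    exact h2
  have hmain := Chebyshev.eval_iterate_derivative_le_of_forall_abs_le_one (k := 0) hx0 hPd hPb
  simp only [Function.iterate_zero, id_eq] at hmain
  have hT := (T_le hx0 N).1
  have hL0 : L.eval x0 = -δ := by
    rw [hLe, hx0d]
    field_simp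
    ring
  rw [hPe, hL0] at hmain
  have h3 := hpt (-δ) (Or.inl ⟨by linarith, le_refl _⟩)
  rw [abs_neg, abs_of_pos h0, neg_div, div_self h0.ne', sub_neg_eq_add] at h3
  have h4 := (abs_le.1 h3).2
  have h5 : (2 - E) / E ≤ (2 * x0) ^ N := by
    refine le_trans ?_ (hmain.trans hT)
    rw [div_mul_eq_mul_div]
    exact div_le_div_of_nonneg_right (by linarith) hE0.le
  rw [div_le_iff₀ hE0] at h5
  have h6 : (2 * x0) ^ N * E = a := by
    rw [hE, pow_succ, ← mul_assoc, ← mul_pow]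
    have : 2 * x0 * a = 1 := by rw [ha]; field_simp
    rw [this, one_pow, one_mul]
  linarith

end Pool.Agent.H256.SG
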