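import Pool.Agent.H256.SG.Def

/-!
# Statements of the steps
-/

open Polynomial

noncomputable section

namespace Pool.Agent.H256.SG

/-- SG-CL: a composition of `T` odd cubics has error at least `a^(2^T)`. -/
def CompLowStm : Prop :=
  ∀ δ : ℝ, 0 < δ → δ < 1 → ∃ a : ℝ, 0 < a ∧ a < 1 ∧
    ∀ T : ℕ, ∀ p ∈ PiComp T, a ^ (2 ^ T) ≤ err δ p

/-- SG-CU: Newton–Schulz. -/
def CompUpStm : Prop :=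
  ∀ δ : ℝ, 0 < δ → δ < 1 → ∃ b : ℝ, 0 < b ∧ b < 1 ∧
    ∀ T : ℕ, ∃ p ∈ PiComp T, err δ p ≤ b ^ (2 ^ T)

/-- SG-PL: a polynomial of degree `≤ N` has error at least `a^(N+1)`. -/
def PolyLowStm : Prop :=
  ∀ δ : ℝ, 0 < δ → δ < 1 → ∃ a : ℝ, 0 < a ∧ a < 1 ∧
    ∀ (N : ℕ) (p : ℝ[X]), p.natDegree ≤ N → a ^ (N + 1) ≤ err δ p

/-- SG-ALG: degrees, linear combinations, monotonicity and compositions. -/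
def AlgStm : Prop :=
  (∀ (m : ℕ) (p : ℝ[X]), p ∈ PiStar m → p.natDegree ≤ 2 ^ m) ∧
  (∀ (m : ℕ) (p : ℝ[X]) (a b : ℝ), p ∈ PiStar m → C a * p + C b ∈ PiStar m) ∧
  (∀ (m n : ℕ), m ≤ n → PiStar m ⊆ PiStar n) ∧
  (∀ (m n : ℕ) (p q : ℝ[X]), p ∈ PiStar m → q ∈ PiStar n → q.comp p ∈ PiStar (m + n)) ∧
  (∀ (T : ℕ), PiComp T ⊆ PiStar (2 * T))

/-- SG-GEN: a map of local order `q` computed with `k` products. -/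
def GenStm : Prop :=
  ∀ (k q : ℕ), 1 ≤ k → 2 ≤ q → ∀ G ∈ PiStar k, (X - 1) ^ q ∣ G - 1 → (X + 1) ^ q ∣ G + 1 →
    ∀ δ : ℝ, 0 < δ → δ < 1 → ∃ c : ℝ, 0 < c ∧
      ∀ m : ℕ, ∃ p ∈ PiStar m, err δ p ≤ Real.exp (-(c * (q : ℝ) ^ ((m : ℝ) / k)))

/-- SG-FOUR: orders 10 and 6 with four products. -/
def FourStm : Prop :=
  ∃ p ∈ PiStar 4, (X - 1) ^ 10 ∣ p - 1 ∧ (X + 1) ^ 6 ∣ p + 1

/-- The system of equations behind SG-FOUR. -/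
structure Sys (τ q0 q1 q2 q3 q4 q5 q6 q7 w r α β R3 R4 R5 R6 : ℝ) : Prop where
  e7 : 2 * q7 = -6 - τ
  e6 : 2 * q6 + q7 ^ 2 = 15 + 75 / 14 * τ
  e5 : 2 * q5 + 2 * q7 * q6 = -20 - 150 / 13 * τ
  e4 : 2 * q4 + 2 * q7 * q5 + q6 ^ 2 = 15 + 25 / 2 * τ
  e3 : 2 * q3 + 2 * q7 * q4 + 2 * q6 * q5 = -6 - 75 / 11 * τ
  e2 : 2 * q2 + 2 * q7 * q3 + 2 * q6 * q4 + q5 ^ 2 = 1 + 3 / 2 * τ
  e1 : 2 * q1 + 2 * q7 * q2 + 2 * q6 * q3 + 2 * q5 * q4 = 0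
  e0 : 2 * q0 + 2 * q7 * q1 + 2 * q6 * q2 + 2 * q5 * q3 + q4 ^ 2 = 0
  r7 : q0 * q7 + q1 * q6 + q2 * q5 + q3 * q4 = 0
  hr : r = q7 / 2
  hα : α = q6 - r ^ 2
  h6 : R6 = -(2 * q0 * q6 + 2 * q1 * q5 + 2 * q2 * q4 + q3 ^ 2)
  h5 : R5 = -(2 * q0 * q5 + 2 * q1 * q4 + 2 * q2 * q3)
  h4 : R4 = -(2 * q0 * q4 + 2 * q1 * q3 + q2 ^ 2)
  h3 : R3 = -(2 * q0 * q3 + 2 * q1 * q2)
  hβ : β = w * q5 - r * (w * α - R6) - R5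
  quad : w ^ 2 * q3 - (w * α - R6) * β / 2 +
    r * (R4 * w - w ^ 2 * q4 + (w * α - R6) ^ 2 / 4 + r * w * β) - R3 * w = 0
  hτ : 0 < τ
  hw : 0 < w

/-- SG-FB: the system has a real solution. -/
def SysStm : Prop :=
  ∃ τ q0 q1 q2 q3 q4 q5 q6 q7 w r α β R3 R4 R5 R6 : ℝ,
    Sys τ q0 q1 q2 q3 q4 q5 q6 q7 w r α β R3 R4 R5 R6

/-- SG-THREE: order 4 with three products. -/
def ThreeStm : Prop :=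
  ∃ p ∈ PiStar 3, (X - 1) ^ 4 ∣ p - 1 ∧ (X + 1) ^ 4 ∣ p + 1

end Pool.Agent.H256.SG
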